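/-
MP_f4af34 (Schiffer problem in three dimensions).  Radial Green operators for the first order pair

  z' = - y - f1,     y' = - (2/s) y + (1 - lam/s^2) z + f2        (lam = k (k + 1)),

part 1: existence by one formula for every degree.  For a fundamental pair (j, n) of
  v'' + (2/s) v' + (1 - lam/s^2) v = 0  with  s^2 (j n' - j' n) = 1  put
  a(s) = Int_{b}^s t^2 (n f2 - n' f1),  q(s) = Int_{b}^s t^2 (j' f1 - j f2),
  z = (a - c) j + q n,    y = - (a - c) j' - q n'.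
-/
import Mathlib

set_option autoImplicit false

open Set Filter Topology MeasureTheory intervalIntegral

namespace SG

/-- a fundamental pair of the radial equation on the positive half line -/
structure Fund (lam : ℝ) where
  j : ℝ → ℝ
  dj : ℝ → ℝ
  n : ℝ → ℝ
  dn : ℝ → ℝ
  hj : ∀ s, 0 < s → HasDerivAt j (dj s) s
  hdj : ∀ s, 0 < s → HasDerivAt dj (-(2 / s * dj s) - (1 - lam / s ^ 2) * j s) s
  hn : ∀ s, 0 < s → HasDerivAt n (dn s) s
  hdn : ∀ s, 0 < s → HasDerivAt dn (-(2 / s * dn s) - (1 - lam / s ^ 2) * n s) s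
  wr : ∀ s, 0 < s → s ^ 2 * (j s * dn s - dj s * n s) = 1

/-- `(z, y)` solves the radial pair with sources `(f1, f2)` on the positive half line -/
structure PSol (lam : ℝ) (f1 f2 z y : ℝ → ℝ) : Prop where
  h1 : ∀ s, 0 < s → HasDerivAt z (-y s - f1 s) s
  h2 : ∀ s, 0 < s → HasDerivAt y (-(2 / s * y s) + (1 - lam / s ^ 2) * z s + f2 s) s

/-- fundamental theorem of calculus on the positive half line -/
theorem hasDerivAt_int {g : ℝ → ℝ} (hg : ContinuousOn g (Ioi 0)) {b s : ℝ} (hb : 0 < b)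
    (hs : 0 < s) : HasDerivAt (fun x => ∫ t in b..x, g t) (g s) s := by
  have hsub : uIcc b s ⊆ Ioi 0 := by
    intro t ht
    exact lt_of_lt_of_le (lt_min hb hs) ht.1
  refine intervalIntegral.integral_hasDerivAt_right (hg.mono hsub).intervalIntegrable ?_
    (hg.continuousAt (Ioi_mem_nhds hs))
  exact ContinuousOn.stronglyMeasurableAtFilter isOpen_Ioi hg s hs

namespace Fund

variable {lam : ℝ} (F : Fund lam)

/-- `Int_b^s t^2 (n f2 - n' f1)` -/
noncomputable def A (b : ℝ) (f1 f2 : ℝ → ℝ) (s : ℝ) : ℝ :=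
  ∫ t in b..s, t ^ 2 * (F.n t * f2 t - F.dn t * f1 t)

/-- `Int_b^s t^2 (j' f1 - j f2)` -/
noncomputable def B (b : ℝ) (f1 f2 : ℝ → ℝ) (s : ℝ) : ℝ :=
  ∫ t in b..s, t ^ 2 * (F.dj t * f1 t - F.j t * f2 t)

/-- first component, free constant `c` -/
noncomputable def z (b c : ℝ) (f1 f2 : ℝ → ℝ) (s : ℝ) : ℝ :=
  (F.A b f1 f2 s - c) * F.j s + F.B b f1 f2 s * F.n s

/-- second component -/
noncomputable def y (b c : ℝ) (f1 f2 : ℝ → ℝ) (s : ℝ) : ℝ :=
  -((F.A b f1 f2 s - c) * F.dj s) - F.B b f1 f2 s * F.dn s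

theorem contOn_j : ContinuousOn F.j (Ioi 0) :=
  fun s hs => (F.hj s hs).continuousAt.continuousWithinAt

theorem contOn_n : ContinuousOn F.n (Ioi 0) :=
  fun s hs => (F.hn s hs).continuousAt.continuousWithinAt

theorem contOn_dj : ContinuousOn F.dj (Ioi 0) :=
  fun s hs => (F.hdj s hs).continuousAt.continuousWithinAt

theorem contOn_dn : ContinuousOn F.dn (Ioi 0) :=
  fun s hs => (F.hdn s hs).continuousAt.continuousWithinAt

variable {f1 f2 : ℝ → ℝ}

theorem contOn_A (hf1 : Continuous f1) (hf2 : Continuous f2) :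
    ContinuousOn (fun t => t ^ 2 * (F.n t * f2 t - F.dn t * f1 t)) (Ioi 0) :=
  (continuousOn_id.pow 2).mul
    ((F.contOn_n.mul hf2.continuousOn).sub (F.contOn_dn.mul hf1.continuousOn))

theorem contOn_B (hf1 : Continuous f1) (hf2 : Continuous f2) :
    ContinuousOn (fun t => t ^ 2 * (F.dj t * f1 t - F.j t * f2 t)) (Ioi 0) :=
  (continuousOn_id.pow 2).mul
    ((F.contOn_dj.mul hf1.continuousOn).sub (F.contOn_j.mul hf2.continuousOn))

theorem hasDerivAt_A (hf1 : Continuous f1) (hf2 : Continuous f2) {b s : ℝ} (hb : 0 < b)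
    (hs : 0 < s) : HasDerivAt (F.A b f1 f2) (s ^ 2 * (F.n s * f2 s - F.dn s * f1 s)) s :=
  hasDerivAt_int (F.contOn_A hf1 hf2) hb hs

theorem hasDerivAt_B (hf1 : Continuous f1) (hf2 : Continuous f2) {b s : ℝ} (hb : 0 < b)
    (hs : 0 < s) : HasDerivAt (F.B b f1 f2) (s ^ 2 * (F.dj s * f1 s - F.j s * f2 s)) s :=
  hasDerivAt_int (F.contOn_B hf1 hf2) hb hs

/-- **existence** for every constant -/
theorem sol (hf1 : Continuous f1) (hf2 : Continuous f2) {b : ℝ} (c : ℝ) (hb : 0 < b) :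
    PSol lam f1 f2 (F.z b c f1 f2) (F.y b c f1 f2) := by
  constructor
  · intro s hs
    have h := (((F.hasDerivAt_A hf1 hf2 hb hs).sub_const c).mul (F.hj s hs)).add
      ((F.hasDerivAt_B hf1 hf2 hb hs).mul (F.hn s hs))
    refine h.congr_deriv ?_
    have hw := F.wr s hs
    simp only [y]
    linear_combination -f1 s * hw
  · intro s hs
    have h := (((F.hasDerivAt_A hf1 hf2 hb hs).sub_const c).mul (F.hdj s hs)).neg.sub
      ((F.hasDerivAt_B hf1 hf2 hb hs).mul (F.hdn s hs))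
    refine h.congr_deriv ?_
    have hw := F.wr s hs
    simp only [y, z]
    linear_combination f2 s * hw

theorem A_self (b : ℝ) (f1 f2 : ℝ → ℝ) : F.A b f1 f2 b = 0 := by simp [A]

theorem B_self (b : ℝ) (f1 f2 : ℝ → ℝ) : F.B b f1 f2 b = 0 := by simp [B]

/-- matching condition at the base point -/
theorem robin (b c : ℝ) (f1 f2 : ℝ → ℝ) :
    F.y b c f1 f2 b * F.j b = -(F.z b c f1 f2 b * F.dj b) := by
  simp only [z, y, A_self, B_self]; ring

/-- Cauchy problem: zero data at the base point for `c = 0` -/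
theorem cauchy (b : ℝ) (f1 f2 : ℝ → ℝ) : F.z b 0 f1 f2 b = 0 ∧ F.y b 0 f1 f2 b = 0 := by
  simp only [z, y, A_self, B_self]
  constructor <;> ring

/-- the constant for which the Dirichlet condition holds at `ρ` -/
noncomputable def cD (b ρ : ℝ) (f1 f2 : ℝ → ℝ) : ℝ :=
  (F.A b f1 f2 ρ * F.j ρ + F.B b f1 f2 ρ * F.n ρ) / F.j ρ

/-- Dirichlet solution, first component -/
noncomputable def zD (b ρ : ℝ) (f1 f2 : ℝ → ℝ) : ℝ → ℝ := F.z b (F.cD b ρ f1 f2) f1 f2

/-- Dirichlet solution, second component -/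
noncomputable def yD (b ρ : ℝ) (f1 f2 : ℝ → ℝ) : ℝ → ℝ := F.y b (F.cD b ρ f1 f2) f1 f2

theorem solD (hf1 : Continuous f1) (hf2 : Continuous f2) {b ρ : ℝ} (hb : 0 < b) :
    PSol lam f1 f2 (F.zD b ρ f1 f2) (F.yD b ρ f1 f2) := F.sol hf1 hf2 _ hb

theorem robinD (b ρ : ℝ) (f1 f2 : ℝ → ℝ) :
    F.yD b ρ f1 f2 b * F.j b = -(F.zD b ρ f1 f2 b * F.dj b) := F.robin b _ f1 f2

theorem zD_rho {b ρ : ℝ} (h : F.j ρ ≠ 0) (f1 f2 : ℝ → ℝ) : F.zD b ρ f1 f2 ρ = 0 := by
  simp only [zD, z, cD]; field_simp; ring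

/-- the boundary displacement of the Dirichlet solution -/
theorem yD_rho {b ρ : ℝ} (hρ : 0 < ρ) (h : F.j ρ ≠ 0) (f1 f2 : ℝ → ℝ) :
    F.yD b ρ f1 f2 ρ = -F.B b f1 f2 ρ / (ρ ^ 2 * F.j ρ) := by
  have hw := F.wr ρ hρ
  simp only [yD, y, cD]
  field_simp
  linear_combination (-F.B b f1 f2 ρ) * hw

/-- where the sources vanish below the base point, the solution is a multiple of the regular one -/
theorem z_below {b c s : ℝ} (hs : s ≤ b) (h1 : ∀ t ≤ b, f1 t = 0) (h2 : ∀ t ≤ b, f2 t = 0) :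
    F.z b c f1 f2 s = -(c * F.j s) ∧ F.y b c f1 f2 s = c * F.dj s := by
  have hA : F.A b f1 f2 s = 0 := by
    simp only [A]
    rw [intervalIntegral.integral_symm, intervalIntegral.integral_zero_ae, neg_zero]
    refine Eventually.of_forall fun t ht => ?_
    rw [uIoc_of_le hs] at ht
    rw [h1 t ht.2, h2 t ht.2]; ring
  have hB : F.B b f1 f2 s = 0 := by
    simp only [B]
    rw [intervalIntegral.integral_symm, intervalIntegral.integral_zero_ae, neg_zero]
    refine Eventually.of_forall fun t ht => ?_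
    rw [uIoc_of_le hs] at ht
    rw [h1 t ht.2, h2 t ht.2]; ring
  simp only [z, y, hA, hB]
  constructor <;> ring

/-! ### linearity in the sources -/

variable {g1 g2 : ℝ → ℝ}

theorem ii_A (hf1 : Continuous f1) (hf2 : Continuous f2) {b s : ℝ} (hb : 0 < b) (hs : 0 < s) :
    IntervalIntegrable (fun t => t ^ 2 * (F.n t * f2 t - F.dn t * f1 t)) volume b s := by
  refine ContinuousOn.intervalIntegrable ((F.contOn_A hf1 hf2).mono fun t ht => ?_)
  exact lt_of_lt_of_le (lt_min hb hs) ht.1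

theorem ii_B (hf1 : Continuous f1) (hf2 : Continuous f2) {b s : ℝ} (hb : 0 < b) (hs : 0 < s) :
    IntervalIntegrable (fun t => t ^ 2 * (F.dj t * f1 t - F.j t * f2 t)) volume b s := by
  refine ContinuousOn.intervalIntegrable ((F.contOn_B hf1 hf2).mono fun t ht => ?_)
  exact lt_of_lt_of_le (lt_min hb hs) ht.1

theorem A_lin (hf1 : Continuous f1) (hf2 : Continuous f2) (hg1 : Continuous g1)
    (hg2 : Continuous g2) (u v : ℝ) {b s : ℝ} (hb : 0 < b) (hs : 0 < s) :
    F.A b (fun t => u * f1 t + v * g1 t) (fun t => u * f2 t + v * g2 t) s =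
      u * F.A b f1 f2 s + v * F.A b g1 g2 s := by
  simp only [A]
  rw [← intervalIntegral.integral_const_mul, ← intervalIntegral.integral_const_mul,
    ← intervalIntegral.integral_add ((F.ii_A hf1 hf2 hb hs).const_mul u)
      ((F.ii_A hg1 hg2 hb hs).const_mul v)]
  refine intervalIntegral.integral_congr fun t _ => ?_
  ring

theorem B_lin (hf1 : Continuous f1) (hf2 : Continuous f2) (hg1 : Continuous g1)
    (hg2 : Continuous g2) (u v : ℝ) {b s : ℝ} (hb : 0 < b) (hs : 0 < s) :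
    F.B b (fun t => u * f1 t + v * g1 t) (fun t => u * f2 t + v * g2 t) s =
      u * F.B b f1 f2 s + v * F.B b g1 g2 s := by
  simp only [B]
  rw [← intervalIntegral.integral_const_mul, ← intervalIntegral.integral_const_mul,
    ← intervalIntegral.integral_add ((F.ii_B hf1 hf2 hb hs).const_mul u)
      ((F.ii_B hg1 hg2 hb hs).const_mul v)]
  refine intervalIntegral.integral_congr fun t _ => ?_
  ring

theorem cD_lin (hf1 : Continuous f1) (hf2 : Continuous f2) (hg1 : Continuous g1)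
    (hg2 : Continuous g2) (u v : ℝ) {b ρ : ℝ} (hb : 0 < b) (hρ : 0 < ρ) :
    F.cD b ρ (fun t => u * f1 t + v * g1 t) (fun t => u * f2 t + v * g2 t) =
      u * F.cD b ρ f1 f2 + v * F.cD b ρ g1 g2 := by
  simp only [cD, F.A_lin hf1 hf2 hg1 hg2 u v hb hρ, F.B_lin hf1 hf2 hg1 hg2 u v hb hρ]
  ring

/-- the Dirichlet solution is linear in the sources -/
theorem D_lin (hf1 : Continuous f1) (hf2 : Continuous f2) (hg1 : Continuous g1)
    (hg2 : Continuous g2) (u v : ℝ) {b ρ s : ℝ} (hb : 0 < b) (hρ : 0 < ρ) (hs : 0 < s) :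
    F.zD b ρ (fun t => u * f1 t + v * g1 t) (fun t => u * f2 t + v * g2 t) s =
        u * F.zD b ρ f1 f2 s + v * F.zD b ρ g1 g2 s ∧
      F.yD b ρ (fun t => u * f1 t + v * g1 t) (fun t => u * f2 t + v * g2 t) s =
        u * F.yD b ρ f1 f2 s + v * F.yD b ρ g1 g2 s := by
  simp only [zD, yD, z, y, F.A_lin hf1 hf2 hg1 hg2 u v hb hs,
    F.B_lin hf1 hf2 hg1 hg2 u v hb hs, F.cD_lin hf1 hf2 hg1 hg2 u v hb hρ]
  constructor <;> ring

/-- the Cauchy solution is linear in the sources -/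
theorem C_lin (hf1 : Continuous f1) (hf2 : Continuous f2) (hg1 : Continuous g1)
    (hg2 : Continuous g2) (u v : ℝ) {b s : ℝ} (hb : 0 < b) (hs : 0 < s) :
    F.z b 0 (fun t => u * f1 t + v * g1 t) (fun t => u * f2 t + v * g2 t) s =
        u * F.z b 0 f1 f2 s + v * F.z b 0 g1 g2 s ∧
      F.y b 0 (fun t => u * f1 t + v * g1 t) (fun t => u * f2 t + v * g2 t) s =
        u * F.y b 0 f1 f2 s + v * F.y b 0 g1 g2 s := by
  simp only [z, y, F.A_lin hf1 hf2 hg1 hg2 u v hb hs, F.B_lin hf1 hf2 hg1 hg2 u v hb hs]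
  constructor <;> ring

end Fund

end SG
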