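/-
MP_f4af34 (Schiffer problem in three dimensions).  The fundamental pair of degree `k`:
spherical Bessel functions `jl k`, `yl k` (library H68/SC).
-/
import Pool.Agent.H37.SG.PFund
import Pool.Agent.H68.SC.JHigh

set_option autoImplicit false

open Set Filter Topology Pool.Agent.H68.SC

namespace SG

/-- derivative of `g` from the derivative of `t ^ 2 * g` -/
theorem hasDerivAt_of_sq_mul {g : ℝ → ℝ} {d s : ℝ} (hs : 0 < s)
    (h : HasDerivAt (fun t => t ^ 2 * g t) d s) :
    HasDerivAt g (d / s ^ 2 - 2 / s * g s) s := by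
  have h2 : HasDerivAt (fun t : ℝ => t ^ 2) (2 * s) s := by
    simpa using hasDerivAt_pow 2 s
  have h3 := h.div h2 (pow_ne_zero 2 hs.ne')
  have h4 : (fun t => t ^ 2 * g t / t ^ 2) =ᶠ[𝓝 s] g := by
    filter_upwards [Ioi_mem_nhds hs] with t ht
    have : t ≠ 0 := (show (0 : ℝ) < t from ht).ne'
    field_simp
  refine (h3.congr_of_eventuallyEq h4.symm).congr_deriv ?_
  have : s ≠ 0 := hs.ne'
  field_simp

/-- the fundamental pair of degree `k` -/
noncomputable def bes (k : ℕ) : Fund ((k : ℝ) * (k + 1)) where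
  j := jl k
  dj := djl k
  n := yl k
  dn := dyl k
  hj := fun s hs => jl_deriv k hs
  hdj := fun s hs => (hasDerivAt_of_sq_mul hs (jl_ode k hs)).congr_deriv (by
    have : s ≠ 0 := hs.ne'
    field_simp
    ring)
  hn := fun s hs => yl_deriv k hs
  hdn := fun s hs => (hasDerivAt_of_sq_mul hs (yl_ode k hs)).congr_deriv (by
    have : s ≠ 0 := hs.ne'
    field_simp
    ring)
  wr := fun s hs => wronskian k hs

theorem bes_j (k : ℕ) : (bes k).j = jl k := rfl

theorem bes_dj (k : ℕ) : (bes k).dj = djl k := rfl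

end SG
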