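/-
MP_f4af34 (Schiffer problem in three dimensions).  Radial Green operators for the first order pair
  z' = - y - f1,     y' = - (2/s) y + (1 - lam/s^2) z + f2,
part 2: propagating degrees, `|1 - lam / s^2| ≤ 1` on the layer `[R0, ρ]`.
Everything is controlled by the data at `ρ`; the datum `y(ρ)` of the Dirichlet problem is
  y(ρ) = (1 / (ρ^2 j(ρ))) Int t^2 (j f2 - j' f1) dt.
-/
import Pool.Agent.H37.SG.PFund

set_option autoImplicit false

open Set Filter Topology MeasureTheory intervalIntegral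

namespace SG

variable {lam R0 ρ : ℝ} {f1 f2 z y : ℝ → ℝ}

theorem PSol.cont_z (S : PSol lam f1 f2 z y) : ContinuousOn z (Ioi 0) :=
  fun s hs => (S.h1 s hs).continuousAt.continuousWithinAt

theorem PSol.cont_y (S : PSol lam f1 f2 z y) : ContinuousOn y (Ioi 0) :=
  fun s hs => (S.h2 s hs).continuousAt.continuousWithinAt

theorem Icc_sub_Ioi {a b : ℝ} (h : 0 < a) : Icc a b ⊆ Ioi (0 : ℝ) :=
  fun _ ht => lt_of_lt_of_le h ht.1

/-- first equation, integrated -/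
theorem PSol.int1 (S : PSol lam f1 f2 z y) (hf1 : Continuous f1) {a b : ℝ} (ha : 0 < a)
    (hab : a ≤ b) : ∫ t in a..b, (-y t - f1 t) = z b - z a := by
  refine intervalIntegral.integral_eq_sub_of_hasDerivAt (fun t ht => ?_) ?_
  · rw [uIcc_of_le hab] at ht
    exact S.h1 t (lt_of_lt_of_le ha ht.1)
  · refine ContinuousOn.intervalIntegrable ?_
    rw [uIcc_of_le hab]
    exact ((S.cont_y.mono (Icc_sub_Ioi ha)).neg).sub hf1.continuousOn

/-- second equation, integrated -/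
theorem PSol.int2 (S : PSol lam f1 f2 z y) (hf2 : Continuous f2) {a b : ℝ} (ha : 0 < a)
    (hab : a ≤ b) :
    ∫ t in a..b, (-(2 / t * y t) + (1 - lam / t ^ 2) * z t + f2 t) = y b - y a := by
  refine intervalIntegral.integral_eq_sub_of_hasDerivAt (fun t ht => ?_) ?_
  · rw [uIcc_of_le hab] at ht
    exact S.h2 t (lt_of_lt_of_le ha ht.1)
  · refine ContinuousOn.intervalIntegrable ?_
    rw [uIcc_of_le hab]
    have h0 : ∀ t ∈ Icc a b, t ≠ 0 := fun t ht => (lt_of_lt_of_le ha ht.1).ne'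
    have h02 : ∀ t ∈ Icc a b, t ^ 2 ≠ 0 := fun t ht => pow_ne_zero 2 (h0 t ht)
    refine (ContinuousOn.add ?_ ?_).add hf2.continuousOn
    · exact ((continuousOn_const.div continuousOn_id h0).mul
        (S.cont_y.mono (Icc_sub_Ioi ha))).neg
    · exact (continuousOn_const.sub (continuousOn_const.div (continuousOn_id.pow 2) h02)).mul
        (S.cont_z.mono (Icc_sub_Ioi ha))

/-- an integral with a pointwise bound -/
theorem abs_int_le {g h : ℝ → ℝ} {a b : ℝ} (hab : a ≤ b) (hb : ∀ t ∈ Icc a b, |g t| ≤ h t)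
    (hi : IntervalIntegrable h volume a b) : |∫ t in a..b, g t| ≤ ∫ t in a..b, h t := by
  have h := intervalIntegral.norm_integral_le_of_norm_le (μ := volume) (a := a) (b := b)
    (f := g) (g := h) hab
    (Eventually.of_forall fun t ht => by
      rw [Real.norm_eq_abs]; exact hb t ⟨ht.1.le, ht.2⟩) hi
  rwa [Real.norm_eq_abs] at h

/-- the integral of the absolute value over a shorter interval -/
theorem int_abs_mono {f : ℝ → ℝ} (hf : Continuous f) {a b s : ℝ} (h1 : a ≤ s) (h2 : s ≤ b) :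
    ∫ t in s..b, |f t| ≤ ∫ t in a..b, |f t| :=
  intervalIntegral.integral_mono_interval h1 h2 le_rfl
    (Eventually.of_forall fun _ => abs_nonneg _) ((hf.abs).intervalIntegrable _ _)

theorem int_lin (a b c d : ℝ) :
    ∫ t in a..b, (c + d * (b - t)) = c * (b - a) + d * ((b - a) ^ 2 / 2) := by
  have hd : ∀ t ∈ uIcc a b, HasDerivAt (fun t => c * t - d * ((b - t) ^ 2 / 2))
      (c + d * (b - t)) t := by
    intro t _
    have h1 := (hasDerivAt_id t).const_mul c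
    have h2 := ((((hasDerivAt_id t).const_sub b).pow 2).div_const 2).const_mul d
    refine (h1.sub h2).congr_deriv ?_
    simp
    ring
  rw [intervalIntegral.integral_eq_sub_of_hasDerivAt hd
    ((by fun_prop : Continuous fun t : ℝ => c + d * (b - t)).intervalIntegrable _ _)]
  ring

/-- `z` in terms of a bound `M` of `y` -/
theorem PSol.z_le (S : PSol lam f1 f2 z y) (hf1 : Continuous f1) (hR : 0 < R0) {M : ℝ}
    (hM : ∀ t ∈ Icc R0 ρ, |y t| ≤ M) {I1 : ℝ} (hI1 : ∫ t in R0..ρ, |f1 t| ≤ I1) {s : ℝ}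
    (hs : s ∈ Icc R0 ρ) : |z s| ≤ |z ρ| + M * (ρ - s) + I1 := by
  have hs0 : 0 < s := lt_of_lt_of_le hR hs.1
  have h := S.int1 hf1 hs0 hs.2
  have hb : |∫ t in s..ρ, (-y t - f1 t)| ≤ ∫ t in s..ρ, (M + |f1 t|) := by
    refine abs_int_le hs.2 (fun t ht => ?_)
      ((continuous_const.add hf1.abs).intervalIntegrable _ _)
    have h1 := abs_sub (-y t) (f1 t)
    rw [abs_neg] at h1
    have h2 := hM t ⟨hs.1.trans ht.1, ht.2⟩
    linarith
  rw [h, intervalIntegral.integral_add (continuous_const.intervalIntegrable _ _)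
    (hf1.abs.intervalIntegrable _ _), intervalIntegral.integral_const, smul_eq_mul] at hb
  have h3 := int_abs_mono hf1 hs.1 hs.2
  have h4 := abs_sub_abs_le_abs_sub (z s) (z ρ)
  rw [abs_sub_comm] at h4
  linarith

/-- **the basic estimate**: the data at `ρ` control the pair on the layer -/
theorem PSol.low (S : PSol lam f1 f2 z y) (hf1 : Continuous f1) (hf2 : Continuous f2)
    (hR : 0 < R0) (hRρ : R0 ≤ ρ) (hlam : ∀ s ∈ Icc R0 ρ, |1 - lam / s ^ 2| ≤ 1)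
    {I1 I2 : ℝ} (hI1 : ∫ t in R0..ρ, |f1 t| ≤ I1) (hI2 : ∫ t in R0..ρ, |f2 t| ≤ I2)
    {θ : ℝ} (hθ : 2 * (ρ - R0) / R0 + (ρ - R0) ^ 2 / 2 ≤ 1 - θ) (hθ0 : 0 < θ) :
    ∀ s ∈ Icc R0 ρ, |y s| ≤ (|y ρ| + (|z ρ| + I1) * (ρ - R0) + I2) / θ := by
  obtain ⟨s0, hs0, hmax⟩ := isCompact_Icc.exists_isMaxOn (nonempty_Icc.2 hRρ)
    (S.cont_y.mono (Icc_sub_Ioi (b := ρ) hR)).abs
  have hM : ∀ t ∈ Icc R0 ρ, |y t| ≤ |y s0| := fun t ht => hmax ht
  set M := |y s0| with hMdef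
  have hM0 : 0 ≤ M := abs_nonneg _
  have hI10 : 0 ≤ I1 := le_trans (intervalIntegral.integral_nonneg hRρ fun t _ => abs_nonneg _) hI1
  have hz : ∀ t ∈ Icc R0 ρ, |z t| ≤ |z ρ| + M * (ρ - t) + I1 :=
    fun t ht => S.z_le hf1 hR hM hI1 ht
  have hs0R : R0 ≤ s0 := hs0.1
  have hs0ρ : s0 ≤ ρ := hs0.2
  have hkey : |y ρ - y s0| ≤
      ((2 / R0 * M + |z ρ| + I1) * (ρ - s0) + M * ((ρ - s0) ^ 2 / 2)) + I2 := by
    rw [← S.int2 hf2 (lt_of_lt_of_le hR hs0.1) hs0.2]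
    have hgi : Continuous fun t : ℝ => (2 / R0 * M + |z ρ| + I1) + M * (ρ - t) := by fun_prop
    have hb : |∫ t in s0..ρ, (-(2 / t * y t) + (1 - lam / t ^ 2) * z t + f2 t)| ≤
        ∫ t in s0..ρ, (((2 / R0 * M + |z ρ| + I1) + M * (ρ - t)) + |f2 t|) := by
      refine abs_int_le hs0ρ (fun t ht => ?_) ((hgi.add hf2.abs).intervalIntegrable _ _)
      have htR : R0 ≤ t := hs0R.trans ht.1
      have ht0 : 0 < t := lt_of_lt_of_le hR htR
      have ht' : t ∈ Icc R0 ρ := ⟨htR, ht.2⟩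
      have h1 : |2 / t * y t| ≤ 2 / R0 * M := by
        rw [abs_mul, abs_of_pos (div_pos two_pos ht0)]
        exact mul_le_mul (div_le_div_of_nonneg_left (by norm_num) hR htR) (hM t ht')
          (abs_nonneg _) (by positivity)
      have h2 : |(1 - lam / t ^ 2) * z t| ≤ |z ρ| + M * (ρ - t) + I1 := by
        rw [abs_mul]
        calc |1 - lam / t ^ 2| * |z t| ≤ 1 * |z t| :=
              mul_le_mul_of_nonneg_right (hlam t ht') (abs_nonneg _)
          _ ≤ _ := by rw [one_mul]; exact hz t ht'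
      have h3 := abs_add_le (-(2 / t * y t) + (1 - lam / t ^ 2) * z t) (f2 t)
      have h4 := abs_add_le (-(2 / t * y t)) ((1 - lam / t ^ 2) * z t)
      rw [abs_neg] at h4
      linarith
    refine hb.trans ?_
    rw [intervalIntegral.integral_add (hgi.intervalIntegrable _ _)
      (hf2.abs.intervalIntegrable _ _), int_lin]
    exact add_le_add le_rfl ((int_abs_mono hf2 hs0R hs0ρ).trans hI2)
  have e1 : ρ - s0 ≤ ρ - R0 := by linarith
  have e0 : 0 ≤ ρ - s0 := by linarith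
  have e2 : (ρ - s0) ^ 2 ≤ (ρ - R0) ^ 2 := pow_le_pow_left₀ e0 e1 2
  have e3 : 0 ≤ 2 / R0 * M + |z ρ| + I1 := by positivity
  have e4 := mul_le_mul_of_nonneg_left e1 e3
  have e5 := mul_le_mul_of_nonneg_left e2 hM0
  have hfin : M ≤ |y ρ| + (|z ρ| + I1) * (ρ - R0) + I2 + (1 - θ) * M := by
    have h1 : M ≤ |y ρ| + |y ρ - y s0| := by
      have h := abs_sub_abs_le_abs_sub (y s0) (y ρ)
      rw [abs_sub_comm (y s0)] at h
      linarith
    have h2 : 2 / R0 * M * (ρ - R0) + M * ((ρ - R0) ^ 2 / 2) ≤ (1 - θ) * M := by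
      have h := mul_le_mul_of_nonneg_right hθ hM0
      calc 2 / R0 * M * (ρ - R0) + M * ((ρ - R0) ^ 2 / 2)
          = (2 * (ρ - R0) / R0 + (ρ - R0) ^ 2 / 2) * M := by ring
        _ ≤ _ := h
    nlinarith
  intro s hs
  refine (hM s hs).trans ?_
  rw [le_div_iff₀ hθ0]
  linarith

/-- the regular solution as a pair `(j, - j')` with zero sources -/
theorem Fund.psol_j (F : Fund lam) :
    PSol lam (fun _ => 0) (fun _ => 0) F.j (fun s => -F.dj s) :=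
  ⟨fun s hs => (F.hj s hs).congr_deriv (by ring),
    fun s hs => ((F.hdj s hs).neg).congr_deriv (by ring)⟩

/-- size of the regular solution on the layer in terms of its data at `ρ` -/
theorem Fund.j_layer (F : Fund lam) (hR : 0 < R0) (hRρ : R0 ≤ ρ)
    (hlam : ∀ s ∈ Icc R0 ρ, |1 - lam / s ^ 2| ≤ 1) {K : ℝ} (hK : |F.dj ρ| ≤ K * |F.j ρ|)
    {θ : ℝ} (hθ : 2 * (ρ - R0) / R0 + (ρ - R0) ^ 2 / 2 ≤ 1 - θ) (hθ0 : 0 < θ) :
    ∀ s ∈ Icc R0 ρ, |F.dj s| ≤ (K + (ρ - R0)) / θ * |F.j ρ| ∧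
      |F.j s| ≤ (1 + (K + (ρ - R0)) / θ * (ρ - s)) * |F.j ρ| := by
  have h1 : ∀ s ∈ Icc R0 ρ, |-F.dj s| ≤ (K + (ρ - R0)) / θ * |F.j ρ| := by
    intro s hs
    have h := F.psol_j.low continuous_const continuous_const hR hRρ hlam (I1 := 0) (I2 := 0)
      (by simp) (by simp) hθ hθ0 s hs
    refine h.trans ?_
    rw [div_mul_eq_mul_div, abs_neg]
    refine (div_le_div_iff_of_pos_right hθ0).2 ?_
    linarith
  intro s hs
  refine ⟨by simpa using h1 s hs, ?_⟩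
  have h := F.psol_j.z_le continuous_const hR h1 (I1 := 0) (by simp) hs
  linarith

/-- **the datum at `ρ` of the Dirichlet solution**, all integrals kept -/
theorem Fund.yD_le (F : Fund lam) (hf1 : Continuous f1) (hf2 : Continuous f2) (hR : 0 < R0)
    (hRρ : R0 ≤ ρ) (hj : F.j ρ ≠ 0) {N : ℝ}
    (hN : ∀ s ∈ Icc R0 ρ, |F.dj s| ≤ N * |F.j ρ| ∧ |F.j s| ≤ (1 + N * (ρ - s)) * |F.j ρ|) :
    |F.yD R0 ρ f1 f2 ρ| ≤ N * (∫ t in R0..ρ, |f1 t|) +
      ((∫ t in R0..ρ, |f2 t|) + N * ∫ t in R0..ρ, (ρ - t) * |f2 t|) := by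
  have hρ : 0 < ρ := lt_of_lt_of_le hR hRρ
  have hjp : 0 < |F.j ρ| := abs_pos.2 hj
  rw [F.yD_rho hρ hj, abs_div, abs_neg, abs_mul, abs_of_nonneg (sq_nonneg ρ),
    div_le_iff₀ (by positivity)]
  have hc1 : Continuous fun t : ℝ => |f1 t| := hf1.abs
  have hc2 : Continuous fun t : ℝ => |f2 t| := hf2.abs
  have hc3 : Continuous fun t : ℝ => (ρ - t) * |f2 t| := by fun_prop
  have hsum : (N * (∫ t in R0..ρ, |f1 t|) +
      ((∫ t in R0..ρ, |f2 t|) + N * ∫ t in R0..ρ, (ρ - t) * |f2 t|)) * (ρ ^ 2 * |F.j ρ|) =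
      ∫ t in R0..ρ, (N * |f1 t| + (|f2 t| + N * ((ρ - t) * |f2 t|))) * (ρ ^ 2 * |F.j ρ|) := by
    rw [intervalIntegral.integral_mul_const, intervalIntegral.integral_add
      ((hc1.intervalIntegrable _ _).const_mul N) ((hc2.intervalIntegrable _ _).add
        ((hc3.intervalIntegrable _ _).const_mul N)),
      intervalIntegral.integral_add (hc2.intervalIntegrable _ _)
        ((hc3.intervalIntegrable _ _).const_mul N), intervalIntegral.integral_const_mul,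
      intervalIntegral.integral_const_mul]
  rw [hsum]
  refine abs_int_le hRρ (fun t ht => ?_)
    ((by fun_prop : Continuous fun t : ℝ =>
      (N * |f1 t| + (|f2 t| + N * ((ρ - t) * |f2 t|))) * (ρ ^ 2 * |F.j ρ|)).intervalIntegrable _ _)
  have ht0 : 0 < t := lt_of_lt_of_le hR ht.1
  rw [abs_mul, abs_of_nonneg (sq_nonneg t)]
  have e1 : t ^ 2 ≤ ρ ^ 2 := pow_le_pow_left₀ ht0.le ht.2 2
  obtain ⟨e2, e3⟩ := hN t ht
  have e4 : |F.dj t * f1 t - F.j t * f2 t| ≤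
      (N * |f1 t| + (1 + N * (ρ - t)) * |f2 t|) * |F.j ρ| := by
    have h1 := abs_sub (F.dj t * f1 t) (F.j t * f2 t)
    rw [abs_mul, abs_mul] at h1
    have h2 := mul_le_mul_of_nonneg_right e2 (abs_nonneg (f1 t))
    have h3 := mul_le_mul_of_nonneg_right e3 (abs_nonneg (f2 t))
    nlinarith
  calc t ^ 2 * |F.dj t * f1 t - F.j t * f2 t| ≤
        ρ ^ 2 * ((N * |f1 t| + (1 + N * (ρ - t)) * |f2 t|) * |F.j ρ|) :=
        mul_le_mul e1 e4 (abs_nonneg _) (sq_nonneg _)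
    _ = (N * |f1 t| + (|f2 t| + N * ((ρ - t) * |f2 t|))) * (ρ ^ 2 * |F.j ρ|) := by ring

/-- weighted integral of the second source against a sup bound -/
theorem int_weight {f : ℝ → ℝ} (hf : Continuous f) (hRρ : R0 ≤ ρ) {A : ℝ}
    (hA : ∀ t ∈ Icc R0 ρ, |f t| ≤ A) :
    (∫ t in R0..ρ, |f t|) ≤ A * (ρ - R0) ∧
      (∫ t in R0..ρ, (ρ - t) * |f t|) ≤ A * ((ρ - R0) ^ 2 / 2) := by
  constructor
  · have h := intervalIntegral.integral_mono_on (μ := volume) hRρ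
      (hf.abs.intervalIntegrable R0 ρ)
      ((continuous_const (y := A)).intervalIntegrable R0 ρ) hA
    rw [intervalIntegral.integral_const, smul_eq_mul] at h
    linarith
  · have hc : Continuous fun t : ℝ => (ρ - t) * |f t| := by fun_prop
    have h := intervalIntegral.integral_mono_on (μ := volume) hRρ (hc.intervalIntegrable R0 ρ)
      ((by fun_prop : Continuous fun t : ℝ => 0 + A * (ρ - t)).intervalIntegrable R0 ρ)
      (fun t ht => by
        have h1 := mul_le_mul_of_nonneg_left (hA t ht) (sub_nonneg.2 ht.2)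
        linarith)
    rw [int_lin] at h
    linarith

/-- **propagating degrees, Dirichlet problem.**  `w = ρ - R0`, `N = (K + w) / θ`,
`I1 = Int |f1|`, `A2 = sup |f2|`. -/
theorem Fund.lowD (F : Fund lam) (hf1 : Continuous f1) (hf2 : Continuous f2) (hR : 0 < R0)
    (hRρ : R0 ≤ ρ) (hj : F.j ρ ≠ 0) (hlam : ∀ s ∈ Icc R0 ρ, |1 - lam / s ^ 2| ≤ 1)
    {K : ℝ} (hK : |F.dj ρ| ≤ K * |F.j ρ|)
    {θ : ℝ} (hθ : 2 * (ρ - R0) / R0 + (ρ - R0) ^ 2 / 2 ≤ 1 - θ) (hθ0 : 0 < θ)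
    {I1 A2 : ℝ} (hI1 : ∫ t in R0..ρ, |f1 t| ≤ I1) (hA2 : ∀ t ∈ Icc R0 ρ, |f2 t| ≤ A2)
    {N P1 P2 : ℝ} (hN : (K + (ρ - R0)) / θ ≤ N)
    (hP1 : (N + (ρ - R0)) / θ ≤ P1)
    (hP2 : (2 * (ρ - R0) + N * ((ρ - R0) ^ 2 / 2)) / θ ≤ P2) :
    ∀ s ∈ Icc R0 ρ, |F.yD R0 ρ f1 f2 s| ≤ P1 * I1 + P2 * A2 ∧
      |F.zD R0 ρ f1 f2 s| ≤ (P1 * I1 + P2 * A2) * (ρ - s) + I1 := by
  have hw : 0 ≤ ρ - R0 := sub_nonneg.2 hRρ
  have hA0 : 0 ≤ A2 := (abs_nonneg _).trans (hA2 R0 (left_mem_Icc.2 hRρ))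
  have hI10 : 0 ≤ I1 := le_trans (intervalIntegral.integral_nonneg hRρ fun t _ => abs_nonneg _) hI1
  have hjp : 0 < |F.j ρ| := abs_pos.2 hj
  have hK0 : 0 ≤ K := by
    by_contra hneg
    have h := mul_neg_of_neg_of_pos (not_le.1 hneg) hjp
    linarith [abs_nonneg (F.dj ρ)]
  have hN' : 0 ≤ (K + (ρ - R0)) / θ := by positivity
  have hN0 : 0 ≤ N := hN'.trans hN
  have hjl : ∀ s ∈ Icc R0 ρ, |F.dj s| ≤ N * |F.j ρ| ∧ |F.j s| ≤ (1 + N * (ρ - s)) * |F.j ρ| := by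
    intro s hs
    obtain ⟨h1, h2⟩ := F.j_layer hR hRρ hlam hK hθ hθ0 s hs
    refine ⟨h1.trans (mul_le_mul_of_nonneg_right hN hjp.le), h2.trans ?_⟩
    refine mul_le_mul_of_nonneg_right ?_ hjp.le
    have := mul_le_mul_of_nonneg_right hN (sub_nonneg.2 hs.2)
    linarith
  obtain ⟨hw1, hw2⟩ := int_weight hf2 hRρ hA2
  have hy : |F.yD R0 ρ f1 f2 ρ| ≤ N * I1 + (A2 * (ρ - R0) + N * (A2 * ((ρ - R0) ^ 2 / 2))) := by
    refine (F.yD_le hf1 hf2 hR hRρ hj hjl).trans ?_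
    have h1 := mul_le_mul_of_nonneg_left hI1 hN0
    have h2 := mul_le_mul_of_nonneg_left hw2 hN0
    linarith
  have S := F.solD hf1 hf2 (ρ := ρ) hR
  have hyl : ∀ s ∈ Icc R0 ρ, |F.yD R0 ρ f1 f2 s| ≤ P1 * I1 + P2 * A2 := by
    intro s hs
    have h := S.low hf1 hf2 hR hRρ hlam hI1 hw1 hθ hθ0 s hs
    rw [F.zD_rho hj, abs_zero, zero_add] at h
    refine h.trans ?_
    have e1 := mul_le_mul_of_nonneg_right hP1 hI10
    have e2 := mul_le_mul_of_nonneg_right hP2 hA0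
    rw [div_mul_eq_mul_div] at e1 e2
    refine le_trans ?_ (add_le_add e1 e2)
    rw [← add_div]
    refine (div_le_div_iff_of_pos_right hθ0).2 ?_
    nlinarith
  intro s hs
  refine ⟨hyl s hs, ?_⟩
  have h := S.z_le hf1 hR hyl hI1 hs
  rw [F.zD_rho hj, abs_zero] at h
  linarith

/-- **propagating degrees, Cauchy problem at `ρ`** (resonant degree): zero data at `ρ`. -/
theorem Fund.lowC (F : Fund lam) (hf1 : Continuous f1) (hf2 : Continuous f2) (hR : 0 < R0)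
    (hRρ : R0 ≤ ρ) (hlam : ∀ s ∈ Icc R0 ρ, |1 - lam / s ^ 2| ≤ 1)
    {θ : ℝ} (hθ : 2 * (ρ - R0) / R0 + (ρ - R0) ^ 2 / 2 ≤ 1 - θ) (hθ0 : 0 < θ)
    {I1 A2 : ℝ} (hI1 : ∫ t in R0..ρ, |f1 t| ≤ I1) (hA2 : ∀ t ∈ Icc R0 ρ, |f2 t| ≤ A2)
    {P1 P2 : ℝ} (hP1 : (ρ - R0) / θ ≤ P1) (hP2 : (ρ - R0) / θ ≤ P2) :
    ∀ s ∈ Icc R0 ρ, |F.y ρ 0 f1 f2 s| ≤ P1 * I1 + P2 * A2 ∧
      |F.z ρ 0 f1 f2 s| ≤ (P1 * I1 + P2 * A2) * (ρ - s) + I1 := by
  have hρ : 0 < ρ := lt_of_lt_of_le hR hRρ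
  have hA0 : 0 ≤ A2 := (abs_nonneg _).trans (hA2 R0 (left_mem_Icc.2 hRρ))
  have hI10 : 0 ≤ I1 := le_trans (intervalIntegral.integral_nonneg hRρ fun t _ => abs_nonneg _) hI1
  obtain ⟨hw1, hw2⟩ := int_weight hf2 hRρ hA2
  obtain ⟨hc1, hc2⟩ := F.cauchy ρ f1 f2
  have S := F.sol hf1 hf2 0 hρ
  have hyl : ∀ s ∈ Icc R0 ρ, |F.y ρ 0 f1 f2 s| ≤ P1 * I1 + P2 * A2 := by
    intro s hs
    have h := S.low hf1 hf2 hR hRρ hlam hI1 hw1 hθ hθ0 s hs
    rw [hc1, hc2, abs_zero, zero_add, zero_add] at h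
    refine h.trans ?_
    have e1 := mul_le_mul_of_nonneg_right hP1 hI10
    have e2 := mul_le_mul_of_nonneg_right hP2 hA0
    rw [div_mul_eq_mul_div] at e1 e2
    refine le_trans ?_ (add_le_add e1 e2)
    rw [← add_div]
    refine (div_le_div_iff_of_pos_right hθ0).2 ?_
    nlinarith
  intro s hs
  refine ⟨hyl s hs, ?_⟩
  have h := S.z_le hf1 hR hyl hI1 hs
  rw [hc1, abs_zero] at h
  linarith

end SG
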