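/-
MP_f4af34 (Schiffer problem in three dimensions).  Radial Green operators for the first order pair
  z' = - y - f1,     y' = - (2/s) y + (1 - lam/s^2) z + f2,       f1 = (kap/2) g,
part 3: bounded operators on the space `LC R0 ρ = C(Icc R0 ρ, ℝ)`.
-/
import Pool.Agent.H37.SG.PLow

set_option autoImplicit false

open Set Filter Topology MeasureTheory intervalIntegral

namespace SG

/-- continuous functions on the layer -/
abbrev LC (R0 ρ : ℝ) := C(Set.Icc R0 ρ, ℝ)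

variable {R0 ρ : ℝ}

/-- constant extension of a function on the layer -/
noncomputable def ext (h : R0 ≤ ρ) (f : LC R0 ρ) : ℝ → ℝ := Set.IccExtend h f

theorem ext_cont (h : R0 ≤ ρ) (f : LC R0 ρ) : Continuous (ext h f) := f.continuous.Icc_extend'

theorem ext_apply (h : R0 ≤ ρ) (f : LC R0 ρ) {s : ℝ} (hs : s ∈ Icc R0 ρ) :
    ext h f s = f ⟨s, hs⟩ := Set.IccExtend_of_mem h f hs

theorem ext_left (h : R0 ≤ ρ) (f : LC R0 ρ) {s : ℝ} (hs : s ≤ R0) :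
    ext h f s = f ⟨R0, left_mem_Icc.2 h⟩ := Set.IccExtend_of_le_left h f hs

theorem ext_add (h : R0 ≤ ρ) (f g : LC R0 ρ) (t : ℝ) : ext h (f + g) t = ext h f t + ext h g t :=
  rfl

theorem ext_smul (h : R0 ≤ ρ) (u : ℝ) (f : LC R0 ρ) (t : ℝ) : ext h (u • f) t = u * ext h f t :=
  rfl

theorem ext_zero (h : R0 ≤ ρ) (t : ℝ) : ext h (0 : LC R0 ρ) t = 0 := rfl

theorem abs_ext_le (h : R0 ≤ ρ) (f : LC R0 ρ) (t : ℝ) : |ext h f t| ≤ ‖f‖ := by
  have := f.norm_coe_le_norm (projIcc R0 ρ h t)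
  rwa [Real.norm_eq_abs] at this

/-- an operator on the layer from a linear bounded construction on functions of a real variable -/
noncomputable def mkOp (h : R0 ≤ ρ) (T : (ℝ → ℝ) → ℝ → ℝ) (M : ℝ)
    (hc : ∀ f, Continuous f → ContinuousOn (T f) (Icc R0 ρ))
    (hl : ∀ f g, Continuous f → Continuous g → ∀ u v s, s ∈ Icc R0 ρ →
      T (fun t => u * f t + v * g t) s = u * T f s + v * T g s)
    (hb : ∀ f, Continuous f → ∀ A, (∀ t ∈ Icc R0 ρ, |f t| ≤ A) →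
      ∀ s ∈ Icc R0 ρ, |T f s| ≤ M * A) : LC R0 ρ →L[ℝ] LC R0 ρ :=
  LinearMap.mkContinuous
    { toFun := fun f => ⟨fun s => T (ext h f) s,
        continuousOn_iff_continuous_domRestrict.1 (hc _ (ext_cont h f))⟩
      map_add' := fun f g => by
        ext s
        have := hl (ext h f) (ext h g) (ext_cont h f) (ext_cont h g) 1 1 s s.2
        simp only [one_mul] at this
        exact this
      map_smul' := fun u f => by
        ext s
        have := hl (ext h f) (ext h f) (ext_cont h f) (ext_cont h f) u 0 s s.2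
        simp only [zero_mul, add_zero] at this
        exact this } M
    (fun f => by
      have hM : 0 ≤ M * ‖f‖ :=
        (abs_nonneg _).trans (hb _ (ext_cont h f) ‖f‖ (fun t _ => abs_ext_le h f t) R0
          (left_mem_Icc.2 h))
      rw [ContinuousMap.norm_le _ hM]
      intro s
      rw [Real.norm_eq_abs]
      exact hb _ (ext_cont h f) ‖f‖ (fun t _ => abs_ext_le h f t) s s.2)

theorem mkOp_apply (h : R0 ≤ ρ) (T : (ℝ → ℝ) → ℝ → ℝ) (M : ℝ) (hc hl hb) (f : LC R0 ρ)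
    (s : Set.Icc R0 ρ) : mkOp h T M hc hl hb f s = T (ext h f) s := rfl

theorem mkOp_norm (h : R0 ≤ ρ) (T : (ℝ → ℝ) → ℝ → ℝ) {M : ℝ} (hM : 0 ≤ M) (hc hl hb) :
    ‖mkOp h T M hc hl hb‖ ≤ M := LinearMap.mkContinuous_norm_le _ hM _

/-- a solution operator for the pair on the layer: Dirichlet or Cauchy; linear in the sources, with
constants: `|y| ≤ ay I1 + by S1 + cy S2`, `|z| ≤ az I1 + bz S1 + cz S2`, where
`I1 ≥ Int |f1|`, `S1 ≥ sup |f1|`, `S2 ≥ sup |f2|` -/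
structure Slv (lam R0 ρ : ℝ) (ay ny cy az nz cz : ℝ) where
  zs : (ℝ → ℝ) → (ℝ → ℝ) → ℝ → ℝ
  ys : (ℝ → ℝ) → (ℝ → ℝ) → ℝ → ℝ
  sol : ∀ f1 f2, Continuous f1 → Continuous f2 → PSol lam f1 f2 (zs f1 f2) (ys f1 f2)
  zrho : ∀ f1 f2, zs f1 f2 ρ = 0
  lin : ∀ f1 f2 g1 g2 : ℝ → ℝ, Continuous f1 → Continuous f2 → Continuous g1 → Continuous g2 →
    ∀ u v s, s ∈ Icc R0 ρ →
      zs (fun t => u * f1 t + v * g1 t) (fun t => u * f2 t + v * g2 t) s =
        u * zs f1 f2 s + v * zs g1 g2 s ∧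
      ys (fun t => u * f1 t + v * g1 t) (fun t => u * f2 t + v * g2 t) s =
        u * ys f1 f2 s + v * ys g1 g2 s
  bd : ∀ f1 f2, Continuous f1 → Continuous f2 → ∀ I1 S1 S2, (∫ t in R0..ρ, |f1 t|) ≤ I1 →
    (∀ t ∈ Icc R0 ρ, |f1 t| ≤ S1) → (∀ t ∈ Icc R0 ρ, |f2 t| ≤ S2) → ∀ s ∈ Icc R0 ρ,
      |ys f1 f2 s| ≤ ay * I1 + ny * S1 + cy * S2 ∧ |zs f1 f2 s| ≤ az * I1 + nz * S1 + cz * S2

namespace Slv

variable {lam ay ny cy az nz cz : ℝ} (G : Slv lam R0 ρ ay ny cy az nz cz)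

theorem cont (hR : 0 < R0) {f1 f2 : ℝ → ℝ} (hf1 : Continuous f1) (hf2 : Continuous f2) :
    ContinuousOn (G.zs f1 f2) (Icc R0 ρ) ∧ ContinuousOn (G.ys f1 f2) (Icc R0 ρ) :=
  ⟨(G.sol f1 f2 hf1 hf2).cont_z.mono (Icc_sub_Ioi hR),
    (G.sol f1 f2 hf1 hf2).cont_y.mono (Icc_sub_Ioi hR)⟩

/-- bounds for the source `(kap/2) g` -/
theorem bd1 (h : R0 ≤ ρ) {kap : ℝ → ℝ} (hk : Continuous kap) {Ik Sk : ℝ}
    (hI : (∫ t in R0..ρ, |kap t / 2|) ≤ Ik) (hS : ∀ t ∈ Icc R0 ρ, |kap t / 2| ≤ Sk)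
    {g : ℝ → ℝ} (hg : Continuous g) {A : ℝ} (hA : ∀ t ∈ Icc R0 ρ, |g t| ≤ A) :
    ∀ s ∈ Icc R0 ρ, |G.ys (fun t => kap t / 2 * g t) (fun _ => 0) s| ≤ (ay * Ik + ny * Sk) * A ∧
      |G.zs (fun t => kap t / 2 * g t) (fun _ => 0) s| ≤ (az * Ik + nz * Sk) * A := by
  have hA0 : 0 ≤ A := (abs_nonneg _).trans (hA R0 (left_mem_Icc.2 h))
  have hc : Continuous fun t : ℝ => kap t / 2 * g t := by fun_prop
  have hi : (∫ t in R0..ρ, |kap t / 2 * g t|) ≤ Ik * A := by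
    have h1 : (∫ t in R0..ρ, |kap t / 2 * g t|) ≤ ∫ t in R0..ρ, |kap t / 2| * A := by
      refine intervalIntegral.integral_mono_on (μ := volume) h (hc.abs.intervalIntegrable _ _)
        (((by fun_prop : Continuous fun t : ℝ => |kap t / 2| * A)).intervalIntegrable _ _)
        fun t ht => ?_
      rw [abs_mul]
      exact mul_le_mul_of_nonneg_left (hA t ht) (abs_nonneg _)
    rw [intervalIntegral.integral_mul_const] at h1
    exact h1.trans (mul_le_mul_of_nonneg_right hI hA0)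
  intro s hs
  obtain ⟨h1, h2⟩ := G.bd _ (fun _ => 0) hc continuous_const (Ik * A) (Sk * A) 0 hi
    (fun t ht => by
      rw [abs_mul]
      exact mul_le_mul (hS t ht) (hA t ht) (abs_nonneg _) ((abs_nonneg _).trans (hS t ht)))
    (fun t _ => by simp) s hs
  exact ⟨h1.trans (le_of_eq (by ring)), h2.trans (le_of_eq (by ring))⟩

theorem bd2 {g : ℝ → ℝ} (hg : Continuous g) {A : ℝ}
    (hA : ∀ t ∈ Icc R0 ρ, |g t| ≤ A) :
    ∀ s ∈ Icc R0 ρ, |G.ys (fun _ => 0) g s| ≤ cy * A ∧ |G.zs (fun _ => 0) g s| ≤ cz * A := by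
  intro s hs
  obtain ⟨h1, h2⟩ := G.bd (fun _ => 0) _ continuous_const hg 0 0 A (by simp) (fun t _ => by simp) hA s hs
  exact ⟨h1.trans (le_of_eq (by ring)), h2.trans (le_of_eq (by ring))⟩

section ops

variable (h : R0 ≤ ρ) (hR : 0 < R0) {kap : ℝ → ℝ} (hk : Continuous kap) {Ik Sk : ℝ}
    (hI : (∫ t in R0..ρ, |kap t / 2|) ≤ Ik) (hS : ∀ t ∈ Icc R0 ρ, |kap t / 2| ≤ Sk)

/-- `g ↦ y`, source `(kap/2) g` -/
noncomputable def Y1 : LC R0 ρ →L[ℝ] LC R0 ρ :=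
  mkOp h (fun g => G.ys (fun t => kap t / 2 * g t) (fun _ => 0)) (ay * Ik + ny * Sk)
    (fun g hg => (G.cont hR (f1 := fun t => kap t / 2 * g t) (by fun_prop)
      continuous_const).2)
    (fun f g hf hg u v s hs => by
      have := (G.lin (fun t => kap t / 2 * f t) (fun _ => 0) (fun t => kap t / 2 * g t)
        (fun _ => 0) (by fun_prop) continuous_const (by fun_prop) continuous_const u v s hs).2
      rw [← this]
      congr 1
      · ext t; ring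
      · ext t; ring)
    (fun g hg A hA s hs => (G.bd1 h hk hI hS hg hA s hs).1)

/-- `g ↦ z`, source `(kap/2) g` -/
noncomputable def Z1 : LC R0 ρ →L[ℝ] LC R0 ρ :=
  mkOp h (fun g => G.zs (fun t => kap t / 2 * g t) (fun _ => 0)) (az * Ik + nz * Sk)
    (fun g hg => (G.cont hR (f1 := fun t => kap t / 2 * g t) (by fun_prop)
      continuous_const).1)
    (fun f g hf hg u v s hs => by
      have := (G.lin (fun t => kap t / 2 * f t) (fun _ => 0) (fun t => kap t / 2 * g t)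
        (fun _ => 0) (by fun_prop) continuous_const (by fun_prop) continuous_const u v s hs).1
      rw [← this]
      congr 1
      · ext t; ring
      · ext t; ring)
    (fun g hg A hA s hs => (G.bd1 h hk hI hS hg hA s hs).2)

/-- `f2 ↦ y` -/
noncomputable def Y2 : LC R0 ρ →L[ℝ] LC R0 ρ :=
  mkOp h (fun g => G.ys (fun _ => 0) g) cy
    (fun g hg => (G.cont hR continuous_const hg).2)
    (fun f g hf hg u v s hs => by
      have := (G.lin (fun _ => 0) f (fun _ => 0) g continuous_const hf continuous_const hg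
        u v s hs).2
      rw [← this]
      congr 1
      ext t; ring)
    (fun g hg A hA s hs => (G.bd2 hg hA s hs).1)

/-- `f2 ↦ z` -/
noncomputable def Z2 : LC R0 ρ →L[ℝ] LC R0 ρ :=
  mkOp h (fun g => G.zs (fun _ => 0) g) cz
    (fun g hg => (G.cont hR continuous_const hg).1)
    (fun f g hf hg u v s hs => by
      have := (G.lin (fun _ => 0) f (fun _ => 0) g continuous_const hf continuous_const hg
        u v s hs).1
      rw [← this]
      congr 1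
      ext t; ring)
    (fun g hg A hA s hs => (G.bd2 hg hA s hs).2)

theorem Y1_norm (h0 : 0 ≤ ay * Ik + ny * Sk) : ‖G.Y1 h hR hk hI hS‖ ≤ ay * Ik + ny * Sk :=
  mkOp_norm _ _ h0 _ _ _

theorem Z1_norm (h0 : 0 ≤ az * Ik + nz * Sk) : ‖G.Z1 h hR hk hI hS‖ ≤ az * Ik + nz * Sk :=
  mkOp_norm _ _ h0 _ _ _

theorem Y2_norm (h0 : 0 ≤ cy) : ‖G.Y2 h hR‖ ≤ cy := mkOp_norm _ _ h0 _ _ _

theorem Z2_norm (h0 : 0 ≤ cz) : ‖G.Z2 h hR‖ ≤ cz := mkOp_norm _ _ h0 _ _ _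

/-- the two operators together: the solution with sources `(kap/2) g` and `f` -/
theorem op_spec (g f : LC R0 ρ) (s : Set.Icc R0 ρ) :
    (G.Z1 h hR hk hI hS g + G.Z2 h hR f) s =
        G.zs (fun t => kap t / 2 * ext h g t) (ext h f) s ∧
      (G.Y1 h hR hk hI hS g + G.Y2 h hR f) s =
        G.ys (fun t => kap t / 2 * ext h g t) (ext h f) s := by
  have hg := ext_cont h g
  have hl := G.lin (fun t => kap t / 2 * ext h g t) (fun _ => 0) (fun _ => 0) (ext h f)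
    (by fun_prop) continuous_const continuous_const (ext_cont h f) 1 1 s s.2
  simp only [one_mul, add_zero, zero_add] at hl
  exact ⟨hl.1.symm, hl.2.symm⟩

end ops

end Slv

/-- **Dirichlet solution operator, propagating degree** -/
noncomputable def slvLow {lam : ℝ} (F : Fund lam) (hR : 0 < R0) (hRρ : R0 ≤ ρ) (hj : F.j ρ ≠ 0)
    (hlam : ∀ s ∈ Icc R0 ρ, |1 - lam / s ^ 2| ≤ 1) {K : ℝ} (hK : |F.dj ρ| ≤ K * |F.j ρ|)
    {θ : ℝ} (hθ : 2 * (ρ - R0) / R0 + (ρ - R0) ^ 2 / 2 ≤ 1 - θ) (hθ0 : 0 < θ)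
    {N P1 P2 : ℝ} (hN : (K + (ρ - R0)) / θ ≤ N) (hP1 : (N + (ρ - R0)) / θ ≤ P1)
    (hP2 : (2 * (ρ - R0) + N * ((ρ - R0) ^ 2 / 2)) / θ ≤ P2) :
    Slv lam R0 ρ P1 0 P2 (P1 * (ρ - R0) + 1) 0 (P2 * (ρ - R0)) where
  zs := F.zD R0 ρ
  ys := F.yD R0 ρ
  sol := fun f1 f2 h1 h2 => F.solD h1 h2 hR
  zrho := F.zD_rho hj
  lin := fun f1 f2 g1 g2 h1 h2 h3 h4 u v s hs => F.D_lin h1 h2 h3 h4 u v hR
    (lt_of_lt_of_le hR hRρ) (lt_of_lt_of_le hR hs.1)
  bd := fun f1 f2 h1 h2 I1 S1 S2 hI hS1 hS2 s hs => by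
    obtain ⟨e1, e2⟩ := F.lowD h1 h2 hR hRρ hj hlam hK hθ hθ0 hI hS2 hN hP1 hP2 s hs
    refine ⟨by linarith, e2.trans ?_⟩
    have h3 : (P1 * I1 + P2 * S2) * (ρ - s) ≤ (P1 * I1 + P2 * S2) * (ρ - R0) :=
      mul_le_mul_of_nonneg_left (by linarith [hs.1]) ((abs_nonneg _).trans e1)
    linarith

/-- **Cauchy solution operator (zero data at `ρ`), propagating degree** -/
noncomputable def slvC {lam : ℝ} (F : Fund lam) (hR : 0 < R0) (hRρ : R0 ≤ ρ)
    (hlam : ∀ s ∈ Icc R0 ρ, |1 - lam / s ^ 2| ≤ 1)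
    {θ : ℝ} (hθ : 2 * (ρ - R0) / R0 + (ρ - R0) ^ 2 / 2 ≤ 1 - θ) (hθ0 : 0 < θ)
    {P : ℝ} (hP : (ρ - R0) / θ ≤ P) :
    Slv lam R0 ρ P 0 P (P * (ρ - R0) + 1) 0 (P * (ρ - R0)) where
  zs := F.z ρ 0
  ys := F.y ρ 0
  sol := fun f1 f2 h1 h2 => F.sol h1 h2 0 (lt_of_lt_of_le hR hRρ)
  zrho := fun f1 f2 => (F.cauchy ρ f1 f2).1
  lin := fun f1 f2 g1 g2 h1 h2 h3 h4 u v s hs => F.C_lin h1 h2 h3 h4 u v
    (lt_of_lt_of_le hR hRρ) (lt_of_lt_of_le hR hs.1)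
  bd := fun f1 f2 h1 h2 I1 S1 S2 hI hS1 hS2 s hs => by
    obtain ⟨e1, e2⟩ := F.lowC h1 h2 hR hRρ hlam hθ hθ0 hI hS2 hP hP s hs
    refine ⟨by linarith, e2.trans ?_⟩
    have h3 : (P * I1 + P * S2) * (ρ - s) ≤ (P * I1 + P * S2) * (ρ - R0) :=
      mul_le_mul_of_nonneg_left (by linarith [hs.1]) ((abs_nonneg _).trans e1)
    linarith

end SG
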