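/-
MP_f4af34 (Schiffer problem in three dimensions).  Radial Green operators, part 2b: sharp constants
in propagating degrees, `0 ≤ 1 - lam / s^2 ≤ 1` on the layer.  A homogeneous solution with
`z(ρ) = 0` satisfies `|y(s)| ≤ (1 + δ) |y(ρ)|`, `δ = 2 w / (R0 θ)`.
-/
import Pool.Agent.H37.SG.PLow

set_option autoImplicit false

open Set Filter Topology MeasureTheory intervalIntegral

namespace SG

variable {lam R0 ρ : ℝ} {f1 f2 z y : ℝ → ℝ}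

/-- differences of solutions -/
theorem PSol.lin2 {g1 g2 z' y' : ℝ → ℝ} (S : PSol lam f1 f2 z y) (T : PSol lam g1 g2 z' y')
    (u v : ℝ) : PSol lam (fun t => u * f1 t + v * g1 t) (fun t => u * f2 t + v * g2 t)
      (fun t => u * z t + v * z' t) (fun t => u * y t + v * y' t) :=
  ⟨fun s hs => (((S.h1 s hs).const_mul u).add ((T.h1 s hs).const_mul v)).congr_deriv (by ring),
    fun s hs => (((S.h2 s hs).const_mul u).add ((T.h2 s hs).const_mul v)).congr_deriv (by ring)⟩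

/-- homogeneous solutions with `z(ρ) = 0`, `y(ρ) = 1` -/
theorem PSol.hom_one (S : PSol lam (fun _ => 0) (fun _ => 0) z y) (hR : 0 < R0) (hRρ : R0 ≤ ρ)
    (hlam0 : ∀ s ∈ Icc R0 ρ, 0 ≤ 1 - lam / s ^ 2) (hlam1 : ∀ s ∈ Icc R0 ρ, 1 - lam / s ^ 2 ≤ 1)
    {θ : ℝ} (hθ : 2 * (ρ - R0) / R0 + (ρ - R0) ^ 2 / 2 ≤ 1 - θ) (hθ0 : 1 / 2 < θ)
    (hz : z ρ = 0) (hy : y ρ = 1) :
    ∀ s ∈ Icc R0 ρ, |y s| ≤ 1 + 2 * (ρ - R0) / (R0 * θ) := by
  have hlam : ∀ s ∈ Icc R0 ρ, |1 - lam / s ^ 2| ≤ 1 := fun s hs => by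
    rw [abs_of_nonneg (hlam0 s hs)]; exact hlam1 s hs
  have hθ1 : 0 < θ := by linarith
  have hw : 0 ≤ ρ - R0 := sub_nonneg.2 hRρ
  have hlow : ∀ s ∈ Icc R0 ρ, |y s| ≤ 1 / θ := by
    intro s hs
    have h := S.low continuous_const continuous_const hR hRρ hlam (I1 := 0) (I2 := 0)
      (by simp) (by simp) hθ hθ1 s hs
    rw [hy, hz] at h
    simpa using h
  have hzle : ∀ s ∈ Icc R0 ρ, |z s| ≤ 1 / θ * (ρ - s) := by
    intro s hs
    have h := S.z_le continuous_const hR hlow (I1 := 0) (by simp) hs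
    rw [hz] at h
    simpa using h
  -- `y` is positive on the layer
  have hint : ∀ s ∈ Icc R0 ρ, ∫ t in s..ρ, (-(2 / t * y t) + (1 - lam / t ^ 2) * z t + 0) =
      1 - y s := by
    intro s hs
    have h := S.int2 continuous_const (lt_of_lt_of_le hR hs.1) hs.2
    rw [hy] at h
    exact h
  have hq : ∀ t ∈ Icc R0 ρ, |2 / t * y t| ≤ 2 / R0 * (1 / θ) := by
    intro t ht
    have ht0 : 0 < t := lt_of_lt_of_le hR ht.1
    rw [abs_mul, abs_of_pos (div_pos two_pos ht0)]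
    exact mul_le_mul (div_le_div_of_nonneg_left (by norm_num) hR ht.1) (hlow t ht)
      (abs_nonneg _) (by positivity)
  have hpos : ∀ s ∈ Icc R0 ρ, 0 < y s := by
    intro s hs
    have h1 : |∫ t in s..ρ, (-(2 / t * y t) + (1 - lam / t ^ 2) * z t + 0)| ≤
        ∫ t in s..ρ, (2 / R0 * (1 / θ) + 1 / θ * (ρ - t)) := by
      refine abs_int_le hs.2 (fun t ht => ?_)
        ((by fun_prop : Continuous fun t : ℝ => 2 / R0 * (1 / θ) + 1 / θ * (ρ - t)).intervalIntegrable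
          _ _)
      have ht' : t ∈ Icc R0 ρ := ⟨hs.1.trans ht.1, ht.2⟩
      have h2 : |(1 - lam / t ^ 2) * z t| ≤ 1 / θ * (ρ - t) := by
        rw [abs_mul]
        calc |1 - lam / t ^ 2| * |z t| ≤ 1 * |z t| :=
              mul_le_mul_of_nonneg_right (hlam t ht') (abs_nonneg _)
          _ ≤ _ := by rw [one_mul]; exact hzle t ht'
      have h4 := abs_add_le (-(2 / t * y t)) ((1 - lam / t ^ 2) * z t)
      rw [abs_neg] at h4
      have h5 := hq t ht'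
      rw [add_zero]
      linarith
    rw [hint s hs, int_lin] at h1
    have e0 : 0 ≤ ρ - s := sub_nonneg.2 hs.2
    have e1 : ρ - s ≤ ρ - R0 := by linarith [hs.1]
    have e2 : (ρ - s) ^ 2 ≤ (ρ - R0) ^ 2 := pow_le_pow_left₀ e0 e1 2
    have h6 : 2 / R0 * (1 / θ) * (ρ - s) + 1 / θ * ((ρ - s) ^ 2 / 2) ≤ (1 - θ) / θ := by
      have h7 : 2 / R0 * (1 / θ) * (ρ - s) + 1 / θ * ((ρ - s) ^ 2 / 2) ≤
          (2 * (ρ - R0) / R0 + (ρ - R0) ^ 2 / 2) / θ := by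
        have e3 : 0 ≤ 2 / R0 * (1 / θ) := by positivity
        have e4 : 0 ≤ 1 / θ := by positivity
        have e5 := mul_le_mul_of_nonneg_left e1 e3
        have e6 := mul_le_mul_of_nonneg_left e2 e4
        calc _ ≤ 2 / R0 * (1 / θ) * (ρ - R0) + 1 / θ * ((ρ - R0) ^ 2 / 2) := by linarith
          _ = _ := by ring
      exact h7.trans ((div_le_div_iff_of_pos_right hθ1).2 hθ)
    have h8 : (1 - θ) / θ < 1 := by
      rw [div_lt_one hθ1]; linarith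
    have h9 := (abs_le.1 h1).2
    linarith
  have hzpos : ∀ s ∈ Icc R0 ρ, 0 ≤ z s := by
    intro s hs
    have h := S.int1 (f1 := fun _ => 0) continuous_const (lt_of_lt_of_le hR hs.1) hs.2
    rw [hz] at h
    have h2 : 0 ≤ ∫ t in s..ρ, y t :=
      intervalIntegral.integral_nonneg hs.2 fun t ht => (hpos t ⟨hs.1.trans ht.1, ht.2⟩).le
    have h3 : ∫ t in s..ρ, (-y t - (fun _ => (0 : ℝ)) t) = -∫ t in s..ρ, y t := by
      rw [← intervalIntegral.integral_neg]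
      refine intervalIntegral.integral_congr fun t _ => ?_
      simp
    rw [h3] at h
    linarith
  intro s hs
  rw [abs_of_pos (hpos s hs)]
  have h1 : -(2 / R0 * (1 / θ)) * (ρ - s) ≤
      ∫ t in s..ρ, (-(2 / t * y t) + (1 - lam / t ^ 2) * z t + 0) := by
    have hc : (∫ _t in s..ρ, -(2 / R0 * (1 / θ))) = -(2 / R0 * (1 / θ)) * (ρ - s) := by
      rw [intervalIntegral.integral_const, smul_eq_mul]; ring
    rw [← hc]
    have hs0 : 0 < s := lt_of_lt_of_le hR hs.1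
    refine intervalIntegral.integral_mono_on (μ := volume) hs.2
      ((continuous_const).intervalIntegrable _ _) ?_ fun t ht => ?_
    · refine ContinuousOn.intervalIntegrable ?_
      rw [uIcc_of_le hs.2]
      have h0 : ∀ t ∈ Icc s ρ, t ≠ 0 := fun t ht => (lt_of_lt_of_le hs0 ht.1).ne'
      have h02 : ∀ t ∈ Icc s ρ, t ^ 2 ≠ 0 := fun t ht => pow_ne_zero 2 (h0 t ht)
      refine (ContinuousOn.add ?_ ?_).add continuousOn_const
      · exact ((continuousOn_const.div continuousOn_id h0).mul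
          (S.cont_y.mono (Icc_sub_Ioi hs0))).neg
      · exact (continuousOn_const.sub (continuousOn_const.div (continuousOn_id.pow 2) h02)).mul
          (S.cont_z.mono (Icc_sub_Ioi hs0))
    · have ht' : t ∈ Icc R0 ρ := ⟨hs.1.trans ht.1, ht.2⟩
      have h5 := (abs_le.1 (hq t ht')).2
      have h6 := mul_nonneg (hlam0 t ht') (hzpos t ht')
      linarith
  rw [hint s hs] at h1
  have e1 : ρ - s ≤ ρ - R0 := by linarith [hs.1]
  have e2 := mul_le_mul_of_nonneg_left e1 (by positivity : 0 ≤ 2 / R0 * (1 / θ))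
  have e3 : 2 * (ρ - R0) / (R0 * θ) = 2 / R0 * (1 / θ) * (ρ - R0) := by field_simp
  rw [e3]
  linarith

/-- the homogeneous solution `(S, C)` with data `(0, 1)` at `ρ` -/
theorem Fund.exists_one (F : Fund lam) (hρ : 0 < ρ) : ∃ S C : ℝ → ℝ,
    PSol lam (fun _ => 0) (fun _ => 0) S C ∧ S ρ = 0 ∧ C ρ = 1 := by
  have hw := F.wr ρ hρ
  refine ⟨fun s => ρ ^ 2 * (F.n ρ * F.j s - F.j ρ * F.n s),
    fun s => -(ρ ^ 2 * (F.n ρ * F.dj s - F.j ρ * F.dn s)), ⟨fun s hs => ?_, fun s hs => ?_⟩,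
    by ring, ?_⟩
  · exact ((((F.hj s hs).const_mul (F.n ρ)).sub ((F.hn s hs).const_mul (F.j ρ))).const_mul
      (ρ ^ 2)).congr_deriv (by ring)
  · exact ((((F.hdj s hs).const_mul (F.n ρ)).sub ((F.hdn s hs).const_mul (F.j ρ))).const_mul
      (ρ ^ 2)).neg.congr_deriv (by ring)
  · linear_combination hw

/-- **sharp basic estimate**, `z(ρ) = 0` -/
theorem Fund.low2 (F : Fund lam) (S : PSol lam f1 f2 z y) (hf1 : Continuous f1)
    (hf2 : Continuous f2) (hR : 0 < R0) (hRρ : R0 ≤ ρ)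
    (hlam0 : ∀ s ∈ Icc R0 ρ, 0 ≤ 1 - lam / s ^ 2) (hlam1 : ∀ s ∈ Icc R0 ρ, 1 - lam / s ^ 2 ≤ 1)
    {I1 I2 : ℝ} (hI1 : (∫ t in R0..ρ, |f1 t|) ≤ I1) (hI2 : (∫ t in R0..ρ, |f2 t|) ≤ I2)
    {θ : ℝ} (hθ : 2 * (ρ - R0) / R0 + (ρ - R0) ^ 2 / 2 ≤ 1 - θ) (hθ0 : 1 / 2 < θ) :
    ∀ s ∈ Icc R0 ρ, |y s| ≤ (1 + 2 * (ρ - R0) / (R0 * θ)) * |y ρ| +
      ((|z ρ| + I1) * (ρ - R0) + I2) / θ := by
  have hlam : ∀ s ∈ Icc R0 ρ, |1 - lam / s ^ 2| ≤ 1 := fun s hs => by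
    rw [abs_of_nonneg (hlam0 s hs)]; exact hlam1 s hs
  have hθ1 : 0 < θ := by linarith
  have hρ : 0 < ρ := lt_of_lt_of_le hR hRρ
  obtain ⟨Sz, C, hS, hS0, hC1⟩ := F.exists_one hρ
  have hC := hS.hom_one hR hRρ hlam0 hlam1 hθ hθ0 hS0 hC1
  have D := S.lin2 hS 1 (-y ρ)
  intro s hs
  have h := D.low (I1 := I1) (I2 := I2) (by fun_prop) (by fun_prop) hR hRρ hlam
    (by simpa using hI1) (by simpa using hI2) hθ hθ1 s hs
  simp only [one_mul, hS0, hC1, mul_zero, add_zero, mul_one, add_neg_cancel, abs_zero,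
    zero_add] at h
  have h1 : |y s| ≤ |y s + -y ρ * C s| + |y ρ| * |C s| := by
    have h2 := abs_sub (y s + -y ρ * C s) (-y ρ * C s)
    rw [add_sub_cancel_right, abs_mul (-y ρ), abs_neg] at h2
    exact h2
  have h3 := mul_le_mul_of_nonneg_left (hC s hs) (abs_nonneg (y ρ))
  linarith

/-- size of the regular solution on the layer, sharp form -/
theorem Fund.j_layer2 (F : Fund lam) (hR : 0 < R0) (hRρ : R0 ≤ ρ)
    (hlam0 : ∀ s ∈ Icc R0 ρ, 0 ≤ 1 - lam / s ^ 2) (hlam1 : ∀ s ∈ Icc R0 ρ, 1 - lam / s ^ 2 ≤ 1)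
    {K : ℝ} (hK : |F.dj ρ| ≤ K * |F.j ρ|)
    {θ : ℝ} (hθ : 2 * (ρ - R0) / R0 + (ρ - R0) ^ 2 / 2 ≤ 1 - θ) (hθ0 : 1 / 2 < θ)
    {N : ℝ} (hN : (1 + 2 * (ρ - R0) / (R0 * θ)) * K + (ρ - R0) / θ ≤ N) :
    ∀ s ∈ Icc R0 ρ, |F.dj s| ≤ N * |F.j ρ| ∧ |F.j s| ≤ (1 + N * (ρ - s)) * |F.j ρ| := by
  have hθ1 : 0 < θ := by linarith
  have hw : 0 ≤ ρ - R0 := sub_nonneg.2 hRρ
  have h1 : ∀ s ∈ Icc R0 ρ, |-F.dj s| ≤ N * |F.j ρ| := by
    intro s hs
    have h := F.low2 F.psol_j continuous_const continuous_const hR hRρ hlam0 hlam1 (I1 := 0)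
      (I2 := 0) (by simp) (by simp) hθ hθ0 s hs
    refine h.trans ?_
    rw [abs_neg, add_zero, add_zero]
    have h2 := mul_le_mul_of_nonneg_right hN (abs_nonneg (F.j ρ))
    have h3 := mul_le_mul_of_nonneg_left hK
      (by positivity : 0 ≤ 1 + 2 * (ρ - R0) / (R0 * θ))
    calc (1 + 2 * (ρ - R0) / (R0 * θ)) * |F.dj ρ| + |F.j ρ| * (ρ - R0) / θ
        ≤ (1 + 2 * (ρ - R0) / (R0 * θ)) * (K * |F.j ρ|) + |F.j ρ| * (ρ - R0) / θ := by linarith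
      _ = ((1 + 2 * (ρ - R0) / (R0 * θ)) * K + (ρ - R0) / θ) * |F.j ρ| := by ring
      _ ≤ _ := h2
  intro s hs
  refine ⟨by simpa using h1 s hs, ?_⟩
  have h := F.psol_j.z_le continuous_const hR h1 (I1 := 0) (by simp) hs
  linarith

/-- **propagating degrees, Dirichlet problem, sharp form.** -/
theorem Fund.lowD2 (F : Fund lam) (hf1 : Continuous f1) (hf2 : Continuous f2) (hR : 0 < R0)
    (hRρ : R0 ≤ ρ) (hj : F.j ρ ≠ 0)
    (hlam0 : ∀ s ∈ Icc R0 ρ, 0 ≤ 1 - lam / s ^ 2) (hlam1 : ∀ s ∈ Icc R0 ρ, 1 - lam / s ^ 2 ≤ 1)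
    {K : ℝ} (hK : |F.dj ρ| ≤ K * |F.j ρ|)
    {θ : ℝ} (hθ : 2 * (ρ - R0) / R0 + (ρ - R0) ^ 2 / 2 ≤ 1 - θ) (hθ0 : 1 / 2 < θ)
    {I1 A2 : ℝ} (hI1 : (∫ t in R0..ρ, |f1 t|) ≤ I1) (hA2 : ∀ t ∈ Icc R0 ρ, |f2 t| ≤ A2)
    {δ N P1 P2 : ℝ} (hδ : 2 * (ρ - R0) / (R0 * θ) ≤ δ)
    (hN : (1 + δ) * K + (ρ - R0) / θ ≤ N)
    (hP1 : (1 + δ) * N + (ρ - R0) / θ ≤ P1)
    (hP2 : (1 + δ) * ((ρ - R0) + N * ((ρ - R0) ^ 2 / 2)) + (ρ - R0) / θ ≤ P2) :
    ∀ s ∈ Icc R0 ρ, |F.yD R0 ρ f1 f2 s| ≤ P1 * I1 + P2 * A2 ∧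
      |F.zD R0 ρ f1 f2 s| ≤ (P1 * I1 + P2 * A2) * (ρ - s) + I1 := by
  have hw : 0 ≤ ρ - R0 := sub_nonneg.2 hRρ
  have hθ1 : 0 < θ := by linarith
  have hA0 : 0 ≤ A2 := (abs_nonneg _).trans (hA2 R0 (left_mem_Icc.2 hRρ))
  have hI10 : 0 ≤ I1 := le_trans (intervalIntegral.integral_nonneg hRρ fun t _ => abs_nonneg _) hI1
  have hjp : 0 < |F.j ρ| := abs_pos.2 hj
  have hδ0 : 0 ≤ δ := le_trans (by positivity) hδ
  have hK0 : 0 ≤ K := by
    by_contra hneg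
    have h := mul_neg_of_neg_of_pos (not_le.1 hneg) hjp
    linarith [abs_nonneg (F.dj ρ)]
  have hwθ : 0 ≤ (ρ - R0) / θ := by positivity
  have hN0 : 0 ≤ N := le_trans (by positivity) hN
  have hjl := F.j_layer2 hR hRρ hlam0 hlam1 hK hθ hθ0 (N := N)
    (le_trans (by
      have := mul_le_mul_of_nonneg_right hδ hK0
      nlinarith) hN)
  obtain ⟨hw1, hw2⟩ := int_weight hf2 hRρ hA2
  have hy : |F.yD R0 ρ f1 f2 ρ| ≤ N * I1 + (A2 * (ρ - R0) + N * (A2 * ((ρ - R0) ^ 2 / 2))) := by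
    refine (F.yD_le hf1 hf2 hR hRρ hj hjl).trans ?_
    have h1 := mul_le_mul_of_nonneg_left hI1 hN0
    have h2 := mul_le_mul_of_nonneg_left hw2 hN0
    linarith
  have S := F.solD hf1 hf2 (ρ := ρ) hR
  have hyl : ∀ s ∈ Icc R0 ρ, |F.yD R0 ρ f1 f2 s| ≤ P1 * I1 + P2 * A2 := by
    intro s hs
    have h := F.low2 S hf1 hf2 hR hRρ hlam0 hlam1 hI1 hw1 hθ hθ0 s hs
    rw [F.zD_rho hj, abs_zero, zero_add] at h
    refine h.trans ?_
    have e1 := mul_le_mul_of_nonneg_right hP1 hI10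
    have e2 := mul_le_mul_of_nonneg_right hP2 hA0
    have e3 : (1 + 2 * (ρ - R0) / (R0 * θ)) * |F.yD R0 ρ f1 f2 ρ| ≤
        (1 + δ) * (N * I1 + (A2 * (ρ - R0) + N * (A2 * ((ρ - R0) ^ 2 / 2)))) :=
      mul_le_mul (by linarith) hy (abs_nonneg _) (by linarith)
    calc _ ≤ (1 + δ) * (N * I1 + (A2 * (ρ - R0) + N * (A2 * ((ρ - R0) ^ 2 / 2)))) +
          (I1 * (ρ - R0) + A2 * (ρ - R0)) / θ := by linarith
      _ = ((1 + δ) * N + (ρ - R0) / θ) * I1 +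
          ((1 + δ) * ((ρ - R0) + N * ((ρ - R0) ^ 2 / 2)) + (ρ - R0) / θ) * A2 := by ring
      _ ≤ _ := add_le_add e1 e2
  intro s hs
  refine ⟨hyl s hs, ?_⟩
  have h := S.z_le hf1 hR hyl hI1 hs
  rw [F.zD_rho hj, abs_zero] at h
  linarith

end SG
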