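/-
MP_f4af34 (Schiffer problem in three dimensions).  Radial Green operators, part 4: the solution
operators with sharp constants, propagating degrees (`slvLow2`) and evanescent degrees (`slvHigh`,
from helper2's `SGHigh.Pair.high`).
-/
import Pool.Agent.H37.SG.Op
import Pool.Agent.H37.SG.PLow2
import Pool.Agent.H2.SG.High

set_option autoImplicit false

open Set Filter Topology MeasureTheory intervalIntegral

namespace SG

variable {R0 ρ lam : ℝ}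

/-- **Dirichlet solution operator, propagating degree, sharp constants** -/
noncomputable def slvLow2 (F : Fund lam) (hR : 0 < R0) (hRρ : R0 ≤ ρ) (hj : F.j ρ ≠ 0)
    (hlam0 : ∀ s ∈ Icc R0 ρ, 0 ≤ 1 - lam / s ^ 2) (hlam1 : ∀ s ∈ Icc R0 ρ, 1 - lam / s ^ 2 ≤ 1)
    {K : ℝ} (hK : |F.dj ρ| ≤ K * |F.j ρ|)
    {θ : ℝ} (hθ : 2 * (ρ - R0) / R0 + (ρ - R0) ^ 2 / 2 ≤ 1 - θ) (hθ0 : 1 / 2 < θ)
    {δ N P1 P2 : ℝ} (hδ : 2 * (ρ - R0) / (R0 * θ) ≤ δ)
    (hN : (1 + δ) * K + (ρ - R0) / θ ≤ N)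
    (hP1 : (1 + δ) * N + (ρ - R0) / θ ≤ P1)
    (hP2 : (1 + δ) * ((ρ - R0) + N * ((ρ - R0) ^ 2 / 2)) + (ρ - R0) / θ ≤ P2) :
    Slv lam R0 ρ P1 0 P2 (P1 * (ρ - R0) + 1) 0 (P2 * (ρ - R0)) where
  zs := F.zD R0 ρ
  ys := F.yD R0 ρ
  sol := fun f1 f2 h1 h2 => F.solD h1 h2 hR
  zrho := F.zD_rho hj
  lin := fun f1 f2 g1 g2 h1 h2 h3 h4 u v s hs => F.D_lin h1 h2 h3 h4 u v hR
    (lt_of_lt_of_le hR hRρ) (lt_of_lt_of_le hR hs.1)
  bd := fun f1 f2 h1 h2 I1 S1 S2 hI hS1 hS2 s hs => by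
    obtain ⟨e1, e2⟩ := F.lowD2 h1 h2 hR hRρ hj hlam0 hlam1 hK hθ hθ0 hI hS2 hδ hN hP1 hP2 s hs
    refine ⟨by linarith, e2.trans ?_⟩
    have h3 : (P1 * I1 + P2 * S2) * (ρ - s) ≤ (P1 * I1 + P2 * S2) * (ρ - R0) :=
      mul_le_mul_of_nonneg_left (by linarith [hs.1]) ((abs_nonneg _).trans e1)
    linarith

/-- a solution on the half line gives helper2's structure on the layer -/
theorem PSol.pair {f1 f2 z y : ℝ → ℝ} (S : PSol lam f1 f2 z y) (hf1 : Continuous f1)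
    (hf2 : Continuous f2) (hR : 0 < R0) (hRρ : R0 < ρ) (hlam : ρ ^ 2 ≤ lam) {m : ℝ}
    (hm : 0 ≤ m) (hz : z ρ = 0) (hr : y R0 = -m * z R0) :
    SGHigh.Pair R0 ρ lam m z y f1 f2 where
  pos := hR
  lt := hRρ
  hlam := hlam
  hm := hm
  hdz := fun s hs => (S.h1 s (lt_of_lt_of_le hR hs.1)).hasDerivWithinAt
  hdy := fun s hs => by
    have h := (S.h2 s (lt_of_lt_of_le hR hs.1)).hasDerivWithinAt (s := Icc R0 ρ)
    exact h.congr_deriv (by ring)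
  hf1 := hf1.continuousOn
  hf2 := hf2.continuousOn
  hz := hz
  hr := hr

/-- **Dirichlet solution operator, evanescent degree**; `mu = sqrt lam / ρ` -/
noncomputable def slvHigh (F : Fund lam) (hR : 1000 ≤ R0) (hRρ : R0 < ρ) (hw : ρ - R0 ≤ 1 / 4)
    (hlam : ρ ^ 2 ≤ lam) (hj : F.j ρ ≠ 0) (hj0 : 0 < F.j R0) (hdj : 0 ≤ F.dj R0) :
    Slv lam R0 ρ 0 1.13 (1.13 / (Real.sqrt lam / ρ)) 0 (1.26 / (Real.sqrt lam / ρ))
      (1.26 / (Real.sqrt lam / ρ) ^ 2) where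
  zs := F.zD R0 ρ
  ys := F.yD R0 ρ
  sol := fun f1 f2 h1 h2 => F.solD h1 h2 (by linarith)
  zrho := F.zD_rho hj
  lin := fun f1 f2 g1 g2 h1 h2 h3 h4 u v s hs => F.D_lin h1 h2 h3 h4 u v (by linarith)
    (by linarith) (by linarith [hs.1])
  bd := fun f1 f2 h1 h2 I1 S1 S2 hI hS1 hS2 s hs => by
    have hR0 : 0 < R0 := by linarith
    have hρ0 : 0 < ρ := by linarith
    have hlam0 : 0 < lam := lt_of_lt_of_le (by positivity) hlam
    have hr := F.robinD R0 ρ f1 f2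
    have hP := (F.solD h1 h2 (ρ := ρ) hR0).pair h1 h2 hR0 hRρ hlam
      (m := F.dj R0 / F.j R0) (div_nonneg hdj hj0.le) (F.zD_rho hj f1 f2)
      (by
        have : F.yD R0 ρ f1 f2 R0 = -(F.zD R0 ρ f1 f2 R0 * F.dj R0) / F.j R0 := by
          rw [eq_div_iff hj0.ne']; exact hr
        rw [this]; ring)
    obtain ⟨e1, e2⟩ := hP.high hw hR hS1 hS2 s hs
    set mu : ℝ := Real.sqrt lam / ρ with hmu
    have hmu0 : 0 < mu := div_pos (Real.sqrt_pos.2 hlam0) hρ0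
    have hmu2 : lam / ρ ^ 2 = mu ^ 2 := by rw [hmu, div_pow, Real.sq_sqrt hlam0.le]
    rw [hmu2] at e2
    constructor
    · have : |F.yD R0 ρ f1 f2 s| ≤ 1.13 * (mu * S1 + S2) / mu := by
        rw [le_div_iff₀ hmu0]; linarith
      refine this.trans (le_of_eq ?_)
      field_simp
      ring
    · have : |F.zD R0 ρ f1 f2 s| ≤ 1.26 * (mu * S1 + S2) / mu ^ 2 := by
        rw [le_div_iff₀ (by positivity)]; linarith
      refine this.trans (le_of_eq ?_)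
      field_simp
      ring

end SG
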