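/-
MP_f4af34 (Schiffer problem in three dimensions).  Radial Green operators, part 5: the operators
of degree `k` for the instance `ρ ∈ [1211, 1211.1]`, `R0 = ρ - 1/4`, resonant degree `l`.

Sources `f1 = (kap/2) g`, `f2 = f`; `(z, y) = (Z1 g + Z2 f, Y1 g + Y2 f)` solves
  z' = - y - f1,   y' = - (2/s) y + (1 - k(k+1)/s^2) z + f2,   z(ρ) = 0,
with the matching condition `y(R0) jl k R0 = - z(R0) djl k R0` for `k ≠ l` and `y(ρ) = 0` for
`k = l`.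
-/
import Pool.Agent.H37.SG.Op2
import Pool.Agent.H37.SG.Bes

set_option autoImplicit false

open Set Filter Topology MeasureTheory intervalIntegral Pool.Agent.H68.SC

namespace SG

/-- the matching condition gives a multiple of the regular solution -/
theorem Fund.coef {lam : ℝ} (F : Fund lam) {R z y : ℝ} (hR : 0 < R)
    (h : y * F.j R = -(z * F.dj R)) : ∃ c : ℝ, z = c * F.j R ∧ y = -(c * F.dj R) := by
  have hw := F.wr R hR
  refine ⟨R ^ 2 * (z * F.dn R + y * F.n R), ?_, ?_⟩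
  · linear_combination (-z) * hw - R ^ 2 * F.n R * h
  · linear_combination (-y) * hw + R ^ 2 * F.dn R * h

variable {R0 ρ : ℝ}

/-- the four operators of degree `k`, with norm bounds -/
structure GOp (h : R0 ≤ ρ) (kap : ℝ → ℝ) (l k : ℕ) (cY1 cZ1 cY2 cZ2 : ℝ) where
  Z1 : LC R0 ρ →L[ℝ] LC R0 ρ
  Y1 : LC R0 ρ →L[ℝ] LC R0 ρ
  Z2 : LC R0 ρ →L[ℝ] LC R0 ρ
  Y2 : LC R0 ρ →L[ℝ] LC R0 ρ
  nY1 : ‖Y1‖ ≤ cY1
  nZ1 : ‖Z1‖ ≤ cZ1
  nY2 : ‖Y2‖ ≤ cY2
  nZ2 : ‖Z2‖ ≤ cZ2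
  spec : ∀ g f : LC R0 ρ, ∃ z y : ℝ → ℝ,
    PSol ((k : ℝ) * (k + 1)) (fun t => kap t / 2 * ext h g t) (ext h f) z y ∧
    (∀ s : Set.Icc R0 ρ, z s = (Z1 g + Z2 f) s) ∧ (∀ s : Set.Icc R0 ρ, y s = (Y1 g + Y2 f) s) ∧
    z ρ = 0 ∧ (k ≠ l → y R0 * jl k R0 = -(z R0 * djl k R0)) ∧ (k = l → y ρ = 0)

/-- operators from a solution operator -/
noncomputable def GOp.ofSlv (h : R0 ≤ ρ) (hR : 0 < R0) {kap : ℝ → ℝ} (hk : Continuous kap)
    {Ik Sk : ℝ} (hI : (∫ t in R0..ρ, |kap t / 2|) ≤ Ik) (hS : ∀ t ∈ Icc R0 ρ, |kap t / 2| ≤ Sk)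
    (l k : ℕ) {ay ny cy az nz cz : ℝ} (G : Slv ((k : ℝ) * (k + 1)) R0 ρ ay ny cy az nz cz)
    (hay : 0 ≤ ay) (hny : 0 ≤ ny) (hcy : 0 ≤ cy) (haz : 0 ≤ az) (hnz : 0 ≤ nz) (hcz : 0 ≤ cz)
    (hrob : k ≠ l → ∀ f1 f2, Continuous f1 → Continuous f2 →
      G.ys f1 f2 R0 * jl k R0 = -(G.zs f1 f2 R0 * djl k R0))
    (hcau : k = l → ∀ f1 f2, Continuous f1 → Continuous f2 → G.ys f1 f2 ρ = 0)
    {cY1 cZ1 cY2 cZ2 : ℝ} (h1 : ay * Ik + ny * Sk ≤ cY1) (h2 : az * Ik + nz * Sk ≤ cZ1)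
    (h3 : cy ≤ cY2) (h4 : cz ≤ cZ2) : GOp h kap l k cY1 cZ1 cY2 cZ2 :=
  have hI0 : 0 ≤ Ik := le_trans (intervalIntegral.integral_nonneg h fun t _ => abs_nonneg _) hI
  have hS0 : 0 ≤ Sk := le_trans (abs_nonneg _) (hS R0 (left_mem_Icc.2 h))
  { Z1 := G.Z1 h hR hk hI hS
    Y1 := G.Y1 h hR hk hI hS
    Z2 := G.Z2 h hR
    Y2 := G.Y2 h hR
    nY1 := (G.Y1_norm h hR hk hI hS (by positivity)).trans h1
    nZ1 := (G.Z1_norm h hR hk hI hS (by positivity)).trans h2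
    nY2 := (G.Y2_norm h hR hcy).trans h3
    nZ2 := (G.Z2_norm h hR hcz).trans h4
    spec := fun g f => by
      have hc1 : Continuous fun t => kap t / 2 * ext h g t :=
        (hk.div_const 2).mul (ext_cont h g)
      have hc2 := ext_cont h f
      exact ⟨_, _, G.sol _ _ hc1 hc2, fun s => (G.op_spec h hR hk hI hS g f s).1.symm,
        fun s => (G.op_spec h hR hk hI hS g f s).2.symm, G.zrho _ _,
        fun hk => hrob hk _ _ hc1 hc2, fun hk => hcau hk _ _ hc1 hc2⟩ }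

section inst

/-- the wave number of degree `k` -/
noncomputable def mu (ρ : ℝ) (k : ℕ) : ℝ := Real.sqrt ((k : ℝ) * (k + 1)) / ρ

variable (h : R0 ≤ ρ) (hw : ρ - R0 = 1 / 4) (h1 : 1211 ≤ ρ) (h2 : ρ ≤ 1211.1)

include hw h1 in
theorem low_q {k : ℕ} (hk : k ≤ 1210) {s : ℝ} (hs : s ∈ Icc R0 ρ) :
    0 ≤ 1 - (k : ℝ) * (k + 1) / s ^ 2 ∧ 1 - (k : ℝ) * (k + 1) / s ^ 2 ≤ 1 := by
  have hs0 : 1210.75 ≤ s := by linarith [hs.1]
  have hk' : (k : ℝ) ≤ 1210 := by exact_mod_cast hk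
  have hk0 : (0 : ℝ) ≤ k := Nat.cast_nonneg k
  have hs2 : (1210.75 : ℝ) ^ 2 ≤ s ^ 2 := pow_le_pow_left₀ (by norm_num) hs0 2
  have hs2' : 0 < s ^ 2 := by positivity
  constructor
  · rw [sub_nonneg, div_le_one hs2']
    nlinarith
  · have : 0 ≤ (k : ℝ) * (k + 1) / s ^ 2 := by positivity
    linarith

include hw h1 in
theorem th_ok : 2 * (ρ - R0) / R0 + (ρ - R0) ^ 2 / 2 ≤ 1 - 0.9683 := by
  rw [hw]
  have h : 2 * (1 / 4 : ℝ) / R0 ≤ 0.000413 := by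
    rw [div_le_iff₀ (by linarith)]; nlinarith
  nlinarith

include hw h1 in
theorem R0_pos' : 0 < R0 := by linarith

variable {kap : ℝ → ℝ} (hk : Continuous kap)
  (hI : (∫ t in R0..ρ, |kap t / 2|) ≤ 0.505) (hS : ∀ t ∈ Icc R0 ρ, |kap t / 2| ≤ 6.15)

/-- **low degrees** `k ≤ 1210`, `k ≠ l` -/
noncomputable def gopLow {l k : ℕ} (hk1 : k ≤ 1210) (hkl : k ≠ l)
    (hj : jl k ρ ≠ 0) (hK : |djl k ρ| ≤ 612 * |jl k ρ|) :
    GOp h kap l k 310 78 20 5 :=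
  GOp.ofSlv h (R0_pos' hw h1) hk hI hS l k
    (slvLow2 (R0 := R0) (ρ := ρ) (bes k) (R0_pos' hw h1) h hj
      (fun s hs => (low_q hw h1 hk1 hs).1) (fun s hs => (low_q hw h1 hk1 hs).2) (K := 612) hK
      (θ := 0.9683) (th_ok hw h1) (by norm_num) (δ := 0.00043) (N := 612.53) (P1 := 613.06)
      (P2 := 19.66)
      (by
        have := R0_pos' hw h1
        rw [hw, div_le_iff₀ (by positivity)]; nlinarith)
      (by rw [hw]; norm_num) (by rw [hw]; norm_num) (by rw [hw]; norm_num))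
    (by norm_num) le_rfl (by norm_num) (by rw [hw]; norm_num) le_rfl (by rw [hw]; norm_num)
    (fun _ f1 f2 _ _ => (bes k).robinD R0 ρ f1 f2)
    (fun h => absurd h hkl)
    (by norm_num) (by rw [hw]; norm_num) (by norm_num) (by rw [hw]; norm_num)

/-- **resonant degree**, Cauchy data at `ρ` -/
noncomputable def gopRes {l : ℕ} (hl : l ≤ 1210) : GOp h kap l l 1 1 1 1 :=
  GOp.ofSlv h (R0_pos' hw h1) hk hI hS l l
    (slvC (R0 := R0) (ρ := ρ) (bes l) (R0_pos' hw h1) h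
      (fun s hs => by
        rw [abs_of_nonneg (low_q hw h1 hl hs).1]; exact (low_q hw h1 hl hs).2)
      (θ := 0.9683) (th_ok hw h1) (by norm_num) (P := 0.26) (by rw [hw]; norm_num))
    (by norm_num) le_rfl (by norm_num) (by rw [hw]; norm_num) le_rfl (by rw [hw]; norm_num)
    (fun h => absurd rfl h)
    (fun _ f1 f2 _ _ => ((bes l).cauchy ρ f1 f2).2)
    (by norm_num) (by rw [hw]; norm_num) (by norm_num) (by rw [hw]; norm_num)

include h1 in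
theorem mu_pos {k : ℕ} (hk : 1 ≤ k) : 0 < mu ρ k := by
  have : (1 : ℝ) ≤ k := by exact_mod_cast hk
  exact div_pos (Real.sqrt_pos.2 (by positivity)) (by linarith)

include h1 h2 in
theorem lam_ge {k : ℕ} (hk : 1211 ≤ k) : ρ ^ 2 ≤ (k : ℝ) * (k + 1) := by
  have hk' : (1211 : ℝ) ≤ k := by exact_mod_cast hk
  nlinarith

/-- **high degrees** `k ≥ 1211`, `k ≠ l` -/
noncomputable def gopHigh {l k : ℕ} (hk1 : 1211 ≤ k) (hkl : k ≠ l) :
    GOp h kap l k 7 (7.8 / mu ρ k) (1.13 / mu ρ k) (1.26 / mu ρ k ^ 2) :=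
  have hlam : ρ ^ 2 ≤ (k : ℝ) * (k + 1) := lam_ge h1 h2 hk1
  have hmu : 0 < mu ρ k := mu_pos h1 (by omega)
  have hR : 0 < R0 := R0_pos' hw h1
  have hjp : ∀ t : ℝ, 0 < t → t ≤ ρ → 0 < jl k t := fun t h0 ht =>
    jl_pos_sq k h0 (le_trans (pow_le_pow_left₀ h0.le ht 2) hlam)
  GOp.ofSlv h hR hk hI hS l k
    (slvHigh (R0 := R0) (ρ := ρ) (bes k) (by linarith) (by linarith) (by linarith) hlam
      (hjp ρ (by linarith) le_rfl).ne' (hjp R0 hR h)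
      (djl_nonneg k hR (le_trans (pow_le_pow_left₀ hR.le h 2) hlam)))
    le_rfl (by norm_num) (by have := hmu; unfold mu at this; positivity) le_rfl
    (by have := hmu; unfold mu at this; positivity)
    (by have := hmu; unfold mu at this; positivity)
    (fun _ f1 f2 _ _ => (bes k).robinD R0 ρ f1 f2)
    (fun h => absurd h hkl)
    (by norm_num)
    (by
      rw [zero_mul, zero_add, div_mul_eq_mul_div]
      exact div_le_div_of_nonneg_right (by norm_num) hmu.le)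
    le_rfl le_rfl

end inst

end SG
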