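/-
MP_f4af34 (Schiffer problem in three dimensions).  Radial Green operators, part 6: one family for
all even degrees on helper94's layer `[SF.R0, SF.rho]`, `kap` = the restriction of `SF.kap`.
-/
import Pool.Agent.H37.SG.GOp
import Pool.Agent.H94.SF.Num

set_option autoImplicit false

open Set Filter Topology MeasureTheory intervalIntegral Pool.Agent.H68.SC

namespace SG

theorem rho_ge : (1211 : ℝ) ≤ SF.rho := by
  have := SN.rho_gt
  unfold SF.rho
  linarith

theorem rho_le : SF.rho ≤ 1211.1 := by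
  have := SN.rho_lt
  unfold SF.rho
  linarith

theorem w_eq : SF.rho - SF.R0 = 1 / 4 := by
  unfold SF.R0 SF.wd
  ring

theorem R0_le : SF.R0 ≤ SF.rho := by
  have := w_eq
  linarith

theorem R0_pos : 0 < SF.R0 := R0_pos' w_eq rho_ge

theorem ne_Ioi : ∀ s ∈ Ioi (0 : ℝ), s ≠ 0 := fun _ hs => (show (0 : ℝ) < _ from hs).ne'

theorem cont_v3 : ContinuousOn SF.v3 (Ioi 0) := by
  have h1 : ContinuousOn (jl 1) (Ioi 0) := (bes 1).contOn_j
  have h2 : ContinuousOn (djl 1) (Ioi 0) := (bes 1).contOn_dj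
  have e : SF.v3 = fun s => ((2 / s ^ 2 - 1) * jl 1 s - 2 / s * djl 1 s) / jl 0 SF.rho := rfl
  rw [e]
  exact ((((continuousOn_const.div (continuousOn_id.pow 2) fun s hs =>
    pow_ne_zero 2 (ne_Ioi s hs)).sub continuousOn_const).mul h1).sub
    ((continuousOn_const.div continuousOn_id ne_Ioi).mul h2)).div_const _

theorem cont_chi : Continuous SF.chi := Pool.Agent.H36.SC.continuous_cut _ _

theorem cont_chi1 : Continuous SF.chi1 := Pool.Agent.H36.SC.continuous_cut1 _ _

theorem cont_kap : ContinuousOn SF.kap (Ioi 0) := by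
  unfold SF.kap
  exact cont_chi1.continuousOn.add ((cont_chi.continuousOn.pow 2).mul cont_v3)

theorem layer_sub : SF.I0 ⊆ Ioi (0 : ℝ) := fun _ hs => lt_of_lt_of_le R0_pos hs.1

/-- `kap` on the layer -/
noncomputable def kapL : LC SF.R0 SF.rho :=
  ⟨fun s => SF.kap s, continuousOn_iff_continuous_domRestrict.1 (cont_kap.mono layer_sub)⟩

/-- `kap`, continuously extended by constants -/
noncomputable def kapX : ℝ → ℝ := ext R0_le kapL

theorem kapX_cont : Continuous kapX := ext_cont _ _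

theorem kapX_eq {s : ℝ} (hs : s ∈ SF.I0) : kapX s = SF.kap s := ext_apply _ _ hs

/-- the constants of the four operators of degree `k` -/
noncomputable def cY1 (k : ℕ) : ℝ := if k ≤ 1210 then 310 else 7
noncomputable def cZ1 (k : ℕ) : ℝ := if k ≤ 1210 then 78 else 7.8 / mu SF.rho k
noncomputable def cY2 (k : ℕ) : ℝ := if k ≤ 1210 then 20 else 1.13 / mu SF.rho k
noncomputable def cZ2 (k : ℕ) : ℝ := if k ≤ 1210 then 5 else 1.26 / mu SF.rho k ^ 2

/-- larger constants -/
noncomputable def GOp.weaken {R0 ρ : ℝ} {h : R0 ≤ ρ} {kap : ℝ → ℝ} {l k : ℕ}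
    {a b c d a' b' c' d' : ℝ} (G : GOp h kap l k a b c d) (h1 : a ≤ a') (h2 : b ≤ b')
    (h3 : c ≤ c') (h4 : d ≤ d') : GOp h kap l k a' b' c' d' :=
  { Z1 := G.Z1, Y1 := G.Y1, Z2 := G.Z2, Y2 := G.Y2, nY1 := G.nY1.trans h1,
    nZ1 := G.nZ1.trans h2, nY2 := G.nY2.trans h3, nZ2 := G.nZ2.trans h4, spec := G.spec }

/-- **the operators of even degree** -/
noncomputable def gop (hI : (∫ t in SF.R0..SF.rho, |kapX t / 2|) ≤ 0.505)
    (hS : ∀ t ∈ SF.I0, |kapX t / 2| ≤ 6.15) (k : ℕ) (hk : Even k) :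
    GOp R0_le kapX SF.ell k (cY1 k) (cZ1 k) (cY2 k) (cZ2 k) :=
  if hl : k = SF.ell then
    (by
      subst hl
      refine (gopRes R0_le w_eq rho_ge kapX_cont hI hS (l := SF.ell)
        (by unfold SF.ell; norm_num)).weaken ?_ ?_ ?_ ?_
      · unfold cY1 SF.ell; norm_num
      · unfold cZ1 SF.ell; norm_num
      · unfold cY2 SF.ell; norm_num
      · unfold cZ2 SF.ell; norm_num)
  else if h1 : k ≤ 1210 then
    (gopLow R0_le w_eq rho_ge kapX_cont hI hS h1 hl (SF.jl_ne k hk hl)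
      (SF.K_le k hk hl h1)).weaken (by unfold cY1; rw [if_pos h1]) (by unfold cZ1; rw [if_pos h1])
      (by unfold cY2; rw [if_pos h1]) (by unfold cZ2; rw [if_pos h1])
  else
    (gopHigh R0_le w_eq rho_ge rho_le kapX_cont hI hS (by omega) hl).weaken
      (by unfold cY1; rw [if_neg h1]) (by unfold cZ1; rw [if_neg h1])
      (by unfold cY2; rw [if_neg h1]) (by unfold cZ2; rw [if_neg h1])

end SG
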