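/-
MP_f4af34 (Schiffer problem in three dimensions).  Radial Green operators, part 7: the families
`Y1 k, Z1 k, Y2 k, Z2 k` (zero for odd `k`) on helper94's layer, all hypotheses discharged, and the
six norm inequalities needed by the weighted spaces (`mh k = max 1 (sqrt (k(k+1)) / R0)`).
-/
import Pool.Agent.H37.SG.Inst
import Pool.Agent.H55.SQ.Bridge

set_option autoImplicit false

open Set Filter Topology MeasureTheory intervalIntegral Pool.Agent.H68.SC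

namespace SG

theorem kapX_int : (∫ t in SF.R0..SF.rho, |kapX t / 2|) ≤ 0.505 := by
  have h : (∫ t in SF.R0..SF.rho, |kapX t / 2|) = (∫ t in SF.R0..SF.rho, |SF.kap t|) / 2 := by
    rw [← intervalIntegral.integral_div]
    refine intervalIntegral.integral_congr fun t ht => ?_
    rw [uIcc_of_le R0_le] at ht
    rw [kapX_eq ht, abs_div, abs_of_pos (two_pos : (0 : ℝ) < 2)]
  rw [h]
  have h2 := SF.Bd.integral_abs_kap
  linarith

theorem kapX_sup : ∀ t ∈ SF.I0, |kapX t / 2| ≤ 6.15 := by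
  intro t ht
  rw [kapX_eq ht, abs_div, abs_of_pos (two_pos : (0 : ℝ) < 2)]
  have h2 := SF.Bd.abs_kap_le ht
  linarith

/-- **the operators of even degree, hypotheses discharged** -/
noncomputable def gopE (k : ℕ) (hk : Even k) :
    GOp R0_le kapX SF.ell k (cY1 k) (cZ1 k) (cY2 k) (cZ2 k) := gop kapX_int kapX_sup k hk

/-- the mode operators, zero for odd degree -/
noncomputable def Y1 (k : ℕ) : LC SF.R0 SF.rho →L[ℝ] LC SF.R0 SF.rho :=
  if h : Even k then (gopE k h).Y1 else 0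
noncomputable def Z1 (k : ℕ) : LC SF.R0 SF.rho →L[ℝ] LC SF.R0 SF.rho :=
  if h : Even k then (gopE k h).Z1 else 0
noncomputable def Y2 (k : ℕ) : LC SF.R0 SF.rho →L[ℝ] LC SF.R0 SF.rho :=
  if h : Even k then (gopE k h).Y2 else 0
noncomputable def Z2 (k : ℕ) : LC SF.R0 SF.rho →L[ℝ] LC SF.R0 SF.rho :=
  if h : Even k then (gopE k h).Z2 else 0

theorem Y1_odd {k : ℕ} (h : ¬ Even k) : Y1 k = 0 := dif_neg h
theorem Z1_odd {k : ℕ} (h : ¬ Even k) : Z1 k = 0 := dif_neg h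
theorem Y2_odd {k : ℕ} (h : ¬ Even k) : Y2 k = 0 := dif_neg h
theorem Z2_odd {k : ℕ} (h : ¬ Even k) : Z2 k = 0 := dif_neg h

/-- **what the operators do** -/
theorem spec (k : ℕ) (hk : Even k) (g f : LC SF.R0 SF.rho) : ∃ z y : ℝ → ℝ,
    PSol ((k : ℝ) * (k + 1)) (fun t => kapX t / 2 * ext R0_le g t) (ext R0_le f) z y ∧
    (∀ s : Set.Icc SF.R0 SF.rho, z s = (Z1 k g + Z2 k f) s) ∧
    (∀ s : Set.Icc SF.R0 SF.rho, y s = (Y1 k g + Y2 k f) s) ∧
    z SF.rho = 0 ∧ (k ≠ SF.ell → y SF.R0 * jl k SF.R0 = -(z SF.R0 * djl k SF.R0)) ∧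
    (k = SF.ell → y SF.rho = 0) := by
  unfold Z1 Z2 Y1 Y2
  rw [dif_pos hk, dif_pos hk, dif_pos hk, dif_pos hk]
  exact (gopE k hk).spec g f

theorem mu_ge_one {k : ℕ} (h : ¬ k ≤ 1210) : 1 ≤ mu SF.rho k := by
  unfold mu
  have hρ := rho_ge
  rw [one_le_div (by linarith)]
  exact Real.le_sqrt_of_sq_le (lam_ge rho_ge rho_le (by omega))

theorem cY1_nonneg (k : ℕ) : 0 ≤ cY1 k := by unfold cY1; split_ifs <;> norm_num
theorem cZ1_nonneg (k : ℕ) : 0 ≤ cZ1 k := by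
  unfold cZ1
  split_ifs with h
  · norm_num
  · have := mu_ge_one h; positivity
theorem cY2_nonneg (k : ℕ) : 0 ≤ cY2 k := by
  unfold cY2
  split_ifs with h
  · norm_num
  · have := mu_ge_one h; positivity
theorem cZ2_nonneg (k : ℕ) : 0 ≤ cZ2 k := by
  unfold cZ2
  split_ifs with h
  · norm_num
  · have := mu_ge_one h; positivity

theorem nY1 (k : ℕ) : ‖Y1 k‖ ≤ cY1 k := by
  by_cases h : Even k
  · unfold Y1; rw [dif_pos h]; exact (gopE k h).nY1
  · rw [Y1_odd h, ContinuousLinearMap.opNorm_zero]; exact cY1_nonneg k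
theorem nZ1 (k : ℕ) : ‖Z1 k‖ ≤ cZ1 k := by
  by_cases h : Even k
  · unfold Z1; rw [dif_pos h]; exact (gopE k h).nZ1
  · rw [Z1_odd h, ContinuousLinearMap.opNorm_zero]; exact cZ1_nonneg k
theorem nY2 (k : ℕ) : ‖Y2 k‖ ≤ cY2 k := by
  by_cases h : Even k
  · unfold Y2; rw [dif_pos h]; exact (gopE k h).nY2
  · rw [Y2_odd h, ContinuousLinearMap.opNorm_zero]; exact cY2_nonneg k
theorem nZ2 (k : ℕ) : ‖Z2 k‖ ≤ cZ2 k := by
  by_cases h : Even k
  · unfold Z2; rw [dif_pos h]; exact (gopE k h).nZ2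
  · rw [Z2_odd h, ContinuousLinearMap.opNorm_zero]; exact cZ2_nonneg k

/-- the relative weight of `X1` -/
noncomputable def mh (k : ℕ) : ℝ := max 1 (Real.sqrt (SF.lam k) / SF.R0)

theorem one_le_mh (k : ℕ) : 1 ≤ mh k := le_max_left _ _

theorem R0_ge : (1210.75 : ℝ) ≤ SF.R0 := by
  have h1 := w_eq
  have h2 := rho_ge
  linarith

theorem lam_low {k : ℕ} (h : k ≤ 1210) : SF.lam k ≤ SF.R0 ^ 2 := by
  have hk : (k : ℝ) ≤ 1210 := by exact_mod_cast h
  have hk0 : (0 : ℝ) ≤ k := Nat.cast_nonneg k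
  have := R0_ge
  unfold SF.lam
  nlinarith

theorem lam_nonneg (k : ℕ) : 0 ≤ SF.lam k := by unfold SF.lam; positivity

theorem mh_low {k : ℕ} (h : k ≤ 1210) : mh k = 1 := by
  unfold mh
  refine max_eq_left ?_
  rw [div_le_one R0_pos]
  exact Real.sqrt_le_iff.2 ⟨R0_pos.le, lam_low h⟩

/-- in high degrees `mh = mu * (ρ / R0)` -/
theorem mh_high {k : ℕ} (h : ¬ k ≤ 1210) :
    mh k = Real.sqrt (SF.lam k) / SF.R0 ∧ mh k ≤ 1.0003 * mu SF.rho k ∧ mu SF.rho k ≤ mh k := by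
  have hR := R0_pos
  have hR2 := R0_ge
  have hw := w_eq
  have hρ : 0 < SF.rho := by linarith
  have h1 := mu_ge_one h
  have e : mu SF.rho k = Real.sqrt (SF.lam k) / SF.rho := rfl
  have h2 : mu SF.rho k ≤ Real.sqrt (SF.lam k) / SF.R0 := by
    rw [e]
    exact div_le_div_of_nonneg_left (Real.sqrt_nonneg _) hR R0_le
  have h3 : Real.sqrt (SF.lam k) / SF.R0 ≤ 1.0003 * mu SF.rho k := by
    rw [e, div_le_iff₀ hR]
    have h4 : 1.0003 * (Real.sqrt (SF.lam k) / SF.rho) * SF.R0 =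
        Real.sqrt (SF.lam k) * (1.0003 * SF.R0 / SF.rho) := by ring
    rw [h4]
    refine le_mul_of_one_le_right (Real.sqrt_nonneg _) ?_
    rw [one_le_div hρ]
    linarith
  have h5 : mh k = Real.sqrt (SF.lam k) / SF.R0 := max_eq_right (h1.trans h2)
  rw [h5]
  exact ⟨rfl, h3, h2⟩

/-- (1) `Y1` -/
theorem bd_Y1 (k : ℕ) : mh k * ‖Y1 k‖ ≤ 330 + 7 * mh k := by
  have h0 := nY1 k
  have h1 := one_le_mh k
  unfold cY1 at h0
  split_ifs at h0 with h
  · rw [mh_low h]; linarith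
  · nlinarith

/-- (2) `Y2` -/
theorem bd_Y2 (k : ℕ) : mh k * ‖Y2 k‖ ≤ 21 := by
  have h0 := nY2 k
  have h1 := one_le_mh k
  unfold cY2 at h0
  split_ifs at h0 with h
  · rw [mh_low h]; linarith
  · obtain ⟨-, h3, -⟩ := mh_high h
    have h2 := mu_ge_one h
    have h4 : mh k * ‖Y2 k‖ ≤ (1.0003 * mu SF.rho k) * (1.13 / mu SF.rho k) :=
      mul_le_mul h3 h0 (ContinuousLinearMap.opNorm_nonneg _) (by positivity)
    have h5 : (1.0003 * mu SF.rho k) * (1.13 / mu SF.rho k) = 1.0003 * 1.13 := by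
      field_simp
    rw [h5] at h4
    norm_num at h4 ⊢
    linarith

/-- (3) `Z1` -/
theorem bd_Z1 (k : ℕ) : ‖Z1 k‖ ≤ 84 := by
  have h0 := nZ1 k
  unfold cZ1 at h0
  split_ifs at h0 with h
  · linarith
  · have h2 := mu_ge_one h
    have h3 : 7.8 / mu SF.rho k ≤ 7.8 := div_le_self (by norm_num) h2
    linarith

/-- (4) `Z2` -/
theorem bd_Z2 (k : ℕ) : ‖Z2 k‖ ≤ 5.5 := by
  have h0 := nZ2 k
  unfold cZ2 at h0
  split_ifs at h0 with h
  · linarith
  · have h2 := mu_ge_one h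
    have h3 : 1.26 / mu SF.rho k ^ 2 ≤ 1.26 := div_le_self (by norm_num) (one_le_pow₀ h2)
    linarith

/-- (5) `lam / R0^2 * Z1` -/
theorem bd_L1 (k : ℕ) : SF.lam k / SF.R0 ^ 2 * ‖Z1 k‖ ≤ 84 + 8 * mh k := by
  have h0 := nZ1 k
  have h1 := one_le_mh k
  have hR := R0_pos
  have hl := lam_nonneg k
  unfold cZ1 at h0
  split_ifs at h0 with h
  · have h2 : SF.lam k / SF.R0 ^ 2 ≤ 1 := by rw [div_le_one (by positivity)]; exact lam_low h
    have h3 : 0 ≤ SF.lam k / SF.R0 ^ 2 := by positivity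
    have h4 := mul_le_mul h2 h0 (ContinuousLinearMap.opNorm_nonneg _) zero_le_one
    linarith
  · obtain ⟨h5, h3, -⟩ := mh_high h
    have h2 := mu_ge_one h
    have h6 : SF.lam k / SF.R0 ^ 2 = mh k * mh k := by
      rw [h5, ← sq, div_pow, Real.sq_sqrt hl]
    rw [h6, mul_assoc]
    have h4 : mh k * ‖Z1 k‖ ≤ (1.0003 * mu SF.rho k) * (7.8 / mu SF.rho k) :=
      mul_le_mul h3 h0 (ContinuousLinearMap.opNorm_nonneg _) (by positivity)
    have h7 : (1.0003 * mu SF.rho k) * (7.8 / mu SF.rho k) = 1.0003 * 7.8 := by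
      field_simp
    rw [h7] at h4
    have h8 : mh k * ‖Z1 k‖ ≤ 8 := by norm_num at h4 ⊢; linarith
    nlinarith

/-- (6) `lam / R0^2 * Z2` -/
theorem bd_L2 (k : ℕ) : SF.lam k / SF.R0 ^ 2 * ‖Z2 k‖ ≤ 5.5 := by
  have h0 := nZ2 k
  have h1 := one_le_mh k
  have hR := R0_pos
  have hl := lam_nonneg k
  unfold cZ2 at h0
  split_ifs at h0 with h
  · have h2 : SF.lam k / SF.R0 ^ 2 ≤ 1 := by rw [div_le_one (by positivity)]; exact lam_low h
    have h4 := mul_le_mul h2 h0 (ContinuousLinearMap.opNorm_nonneg _) zero_le_one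
    linarith
  · obtain ⟨h5, h3, -⟩ := mh_high h
    have h2 := mu_ge_one h
    have h6 : SF.lam k / SF.R0 ^ 2 = mh k ^ 2 := by
      rw [h5, div_pow, Real.sq_sqrt hl]
    rw [h6]
    have h9 : mh k ^ 2 ≤ (1.0003 * mu SF.rho k) ^ 2 := pow_le_pow_left₀ (by linarith) h3 2
    have h4 : mh k ^ 2 * ‖Z2 k‖ ≤ (1.0003 * mu SF.rho k) ^ 2 * (1.26 / mu SF.rho k ^ 2) :=
      mul_le_mul h9 h0 (ContinuousLinearMap.opNorm_nonneg _) (by positivity)
    have h7 : (1.0003 * mu SF.rho k) ^ 2 * (1.26 / mu SF.rho k ^ 2) = 1.0003 ^ 2 * 1.26 := by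
      field_simp
    rw [h7] at h4
    norm_num at h4 ⊢
    linarith

/-- plain bounds in high degrees, for the tail estimate -/
theorem bd_high {k : ℕ} (h : 1211 ≤ k) : ‖Y1 k‖ ≤ 7 ∧ ‖Y2 k‖ ≤ 1.13 := by
  have h0 : ¬ k ≤ 1210 := by omega
  have h1 := nY1 k
  have h2 := nY2 k
  unfold cY1 at h1
  unfold cY2 at h2
  rw [if_neg h0] at h1 h2
  exact ⟨h1, h2.trans (div_le_self (by norm_num) (mu_ge_one h0))⟩

end SG
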